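import Mathlib

set_option autoImplicit false
set_option linter.all false
set_option linter.deprecated false

/-!
# Coordinates on `ℝ³` and planar stadiums
-/

namespace Pool.Agent.H210R3.Coord

open MeasureTheory Set
open scoped Pointwise

abbrev E := EuclideanSpace ℝ (Fin 3)

/-- The point with coordinates `(x, y, z)`. -/
noncomputable def g (q : ℝ × (ℝ × ℝ)) : E := !₂[q.2.1, q.2.2, q.1]

/-- The measurable equivalence underlying `g`. -/
noncomputable def coord : (ℝ × (ℝ × ℝ)) ≃ᵐ E :=
  ((MeasurableEquiv.refl ℝ).prodCongr (MeasurableEquiv.finTwoArrow (α := ℝ)).symm).trans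
    ((MeasurableEquiv.piFinSuccAbove (fun _ : Fin 3 => ℝ) 2).symm.trans
      (MeasurableEquiv.toLp 2 (Fin 3 → ℝ)))

theorem coord_eq (q : ℝ × (ℝ × ℝ)) : coord q = g q := by
  ext i
  fin_cases i <;> rfl

theorem mp_coord : MeasurePreserving (coord : ℝ × (ℝ × ℝ) → E) volume volume := by
  have h1 : MeasurePreserving ((MeasurableEquiv.refl ℝ).prodCongr
      (MeasurableEquiv.finTwoArrow (α := ℝ)).symm) volume volume := by
    have := (MeasurePreserving.id (volume : Measure ℝ)).prod
      (volume_preserving_finTwoArrow ℝ).symm
    exact this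
  have h2 := (volume_preserving_piFinSuccAbove (fun _ : Fin 3 => ℝ) 2).symm
  have h3 : MeasurePreserving (MeasurableEquiv.toLp 2 (Fin 3 → ℝ)) volume volume :=
    PiLp.volume_preserving_toLp (Fin 3)
  exact (h3.comp h2).comp h1

theorem mp_g : MeasurePreserving g volume volume := by
  have : g = coord := by
    ext1 q
    rw [coord_eq]
  rw [this]
  exact mp_coord

theorem vol_eq {S : Set E} (hS : MeasurableSet S) : volume S = volume (g ⁻¹' S) :=
  (mp_g.measure_preimage hS.nullMeasurableSet).symm

theorem g_cont : Continuous g := by
  unfold g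
  fun_prop

@[simp] theorem g_zero (q : ℝ × (ℝ × ℝ)) : g q 0 = q.2.1 := rfl
@[simp] theorem g_one (q : ℝ × (ℝ × ℝ)) : g q 1 = q.2.2 := rfl
@[simp] theorem g_two (q : ℝ × (ℝ × ℝ)) : g q 2 = q.1 := rfl

/-- Projection to the first two coordinates. -/
def p2 (x : E) : ℝ × ℝ := (x 0, x 1)

theorem p2_cont : Continuous p2 := by
  unfold p2
  fun_prop

/-- Adding a vertical segment to a compact convex set. -/
theorem vol_add_segment {M : Set E} (hM : IsCompact M) (hc : Convex ℝ M) {c : ℝ} (hc0 : 0 ≤ c) :
    volume (M + segment ℝ (0 : E) (EuclideanSpace.single 2 c)) =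
      volume M + ENNReal.ofReal c * volume (p2 '' M) := by
  have hseg : IsCompact (segment ℝ (0 : E) (EuclideanSpace.single 2 c)) := by
    rw [segment_eq_image]
    apply isCompact_Icc.image
    fun_prop
  have hadd : IsCompact (M + segment ℝ (0 : E) (EuclideanSpace.single 2 c)) := hM.add hseg
  have hM2 : IsCompact (p2 '' M) := hM.image p2_cont
  rw [vol_eq hadd.isClosed.measurableSet, vol_eq hM.isClosed.measurableSet]
  have m1 : MeasurableSet (g ⁻¹' (M + segment ℝ (0 : E) (EuclideanSpace.single 2 c))) :=
    (hadd.isClosed.preimage g_cont).measurableSet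
  have m2 : MeasurableSet (g ⁻¹' M) := (hM.isClosed.preimage g_cont).measurableSet
  rw [Measure.volume_eq_prod, Measure.prod_apply_symm m1, Measure.prod_apply_symm m2,
    ← lintegral_indicator_one hM2.isClosed.measurableSet, ← lintegral_const_mul _
      (measurable_one.indicator hM2.isClosed.measurableSet), ← lintegral_add_right _
      ((measurable_one.indicator hM2.isClosed.measurableSet).const_mul _)]
  refine lintegral_congr fun y => ?_
  -- the fibre over `y`
  by_cases hy : y ∈ p2 '' M
  · rw [indicator_of_mem hy, Pi.one_apply, mul_one]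
    set F : Set ℝ := (fun z => (z, y)) ⁻¹' (g ⁻¹' M) with hF
    have hFne : F.Nonempty := by
      obtain ⟨x, hx, hxy⟩ := hy
      refine ⟨x 2, ?_⟩
      show g (x 2, y) ∈ M
      have : g (x 2, y) = x := by
        rw [← hxy]
        ext i
        fin_cases i <;> rfl
      rw [this]
      exact hx
    have hFc : IsCompact F := by
      have hcl : IsClosed F := by
        apply IsClosed.preimage _ (hM.isClosed.preimage g_cont)
        fun_prop
      obtain ⟨r, hr⟩ := hM.isBounded.subset_closedBall 0
      refine IsCompact.of_isClosed_subset (isCompact_Icc (a := -r) (b := r)) hcl ?_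
      intro z hz
      have h1 : g (z, y) ∈ Metric.closedBall (0 : E) r := hr hz
      rw [mem_closedBall_zero_iff] at h1
      have h2 : |z| ≤ ‖g (z, y)‖ := by
        have := PiLp.norm_apply_le (g (z, y)) 2
        simpa using this
      exact abs_le.1 (h2.trans h1)
    have hFconv : Convex ℝ F := by
      intro z1 h1 z2 h2 a b ha hb hab
      have := hc h1 h2 ha hb hab
      show g (a • z1 + b • z2, y) ∈ M
      convert this using 1
      ext i
      fin_cases i
      · show y.1 = a * y.1 + b * y.1
        rw [← add_mul, hab, one_mul]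
      · show y.2 = a * y.2 + b * y.2
        rw [← add_mul, hab, one_mul]
      · rfl
    have hFIcc : F = Icc (sInf F) (sSup F) :=
      eq_Icc_of_connected_compact ⟨hFne, hFconv.isPreconnected⟩ hFc
    have hle : sInf F ≤ sSup F := by
      have : F.Nonempty := hFne
      rw [hFIcc] at this
      exact nonempty_Icc.1 this
    have hG : (fun z => (z, y)) ⁻¹' (g ⁻¹' (M + segment ℝ (0 : E) (EuclideanSpace.single 2 c)))
        = Icc (sInf F) (sSup F + c) := by
      ext z
      simp only [mem_preimage, mem_Icc]
      constructor
      · rintro ⟨m, hm, w, hw, e⟩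
        rw [segment_eq_image] at hw
        obtain ⟨t, ht, rfl⟩ := hw
        have e0 := congrArg (fun v : E => v 0) e
        have e1 := congrArg (fun v : E => v 1) e
        have e2 := congrArg (fun v : E => v 2) e
        simp at e0 e1 e2
        have hmF : m 2 ∈ F := by
          show g (m 2, y) ∈ M
          have : g (m 2, y) = m := by
            ext i
            fin_cases i
            · exact e0.symm
            · exact e1.symm
            · rfl
          rw [this]
          exact hm
        rw [hFIcc] at hmF
        have h1 := hmF.1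
        have h2 := hmF.2
        have h3 : 0 ≤ t * c := mul_nonneg ht.1 hc0
        have h4 : t * c ≤ c := by nlinarith [ht.2]
        constructor <;> linarith
      · rintro ⟨h1, h2⟩
        -- choose the point of `F` nearest to `z`
        by_cases hz : z ≤ sSup F
        · have hzF : z ∈ F := by
            rw [hFIcc]
            exact ⟨h1, hz⟩
          refine ⟨g (z, y), hzF, 0, left_mem_segment _ _ _, by simp⟩
        · push Not at hz
          have hsF : sSup F ∈ F := hFc.sSup_mem hFne
          refine ⟨g (sSup F, y), hsF, EuclideanSpace.single 2 (z - sSup F), ?_, ?_⟩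
          · have hcpos : 0 < c := by linarith
            rw [segment_eq_image]
            refine ⟨(z - sSup F) / c, ⟨by apply div_nonneg <;> linarith,
              by rw [div_le_one hcpos]; linarith⟩, ?_⟩
            ext i
            fin_cases i <;> simp
            field_simp
          · ext i
            fin_cases i <;> simp
    rw [hG, hFIcc, Real.volume_Icc]
    have e1 : sSup (Icc (sInf F) (sSup F)) = sSup F := csSup_Icc hle
    have e2 : sInf (Icc (sInf F) (sSup F)) = sInf F := csInf_Icc hle
    rw [Real.volume_Icc, e1, e2, ← ENNReal.ofReal_add (by linarith) hc0]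
    congr 1
    ring
  · rw [indicator_of_notMem hy, mul_zero, add_zero]
    have h1 : (fun z => (z, y)) ⁻¹' (g ⁻¹' M) = ∅ := by
      ext z
      simp only [mem_preimage, mem_empty_iff_false, iff_false]
      intro h
      exact hy ⟨_, h, rfl⟩
    have h2 : (fun z => (z, y)) ⁻¹' (g ⁻¹' (M + segment ℝ (0 : E) (EuclideanSpace.single 2 c)))
        = ∅ := by
      ext z
      simp only [mem_preimage, mem_empty_iff_false, iff_false]
      rintro ⟨m, hm, w, hw, e⟩
      rw [segment_eq_image] at hw
      obtain ⟨t, ht, rfl⟩ := hw
      have e0 := congrArg (fun v : E => v 0) e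
      have e1 := congrArg (fun v : E => v 1) e
      simp at e0 e1
      exact hy ⟨m, hm, Prod.ext e0 e1⟩
    rw [h1, h2]

end Pool.Agent.H210R3.Coord
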