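import Mathlib

set_option autoImplicit false
set_option linter.all false
set_option linter.deprecated false

/-!
# Primitive inner illuminating sets of three-dimensional convex bodies: the combinatorial core

Points `a i`, `x j` of `ℝ³` and a set `P` of functionals (points of the polar body).
`n ∈ P` touches `y` when `dot n y = 1`.
-/

namespace Pool.Agent.H210R3.Illum

abbrev V := EuclideanSpace ℝ (Fin 3)

noncomputable def dot (n y : V) : ℝ := n 0 * y 0 + n 1 * y 1 + n 2 * y 2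

/-- The three points are not collinear. -/
def NC (p q r : V) : Prop :=
  ¬ ((q 1 - p 1) * (r 2 - p 2) - (q 2 - p 2) * (r 1 - p 1) = 0 ∧
     (q 2 - p 2) * (r 0 - p 0) - (q 0 - p 0) * (r 2 - p 2) = 0 ∧
     (q 0 - p 0) * (r 1 - p 1) - (q 1 - p 1) * (r 0 - p 0) = 0)

/-- The signed volume of `(q - p, r - p, y - p)`. -/
noncomputable def z (p q r y : V) : ℝ :=
  ((q 1 - p 1) * (r 2 - p 2) - (q 2 - p 2) * (r 1 - p 1)) * (y 0 - p 0) +
  ((q 2 - p 2) * (r 0 - p 0) - (q 0 - p 0) * (r 2 - p 2)) * (y 1 - p 1) +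
  ((q 0 - p 0) * (r 1 - p 1) - (q 1 - p 1) * (r 0 - p 0)) * (y 2 - p 2)

theorem ext3 {p q : V} (h0 : p 0 = q 0) (h1 : p 1 = q 1) (h2 : p 2 = q 2) : p = q := by
  ext i
  fin_cases i
  · exact h0
  · exact h1
  · exact h2

theorem dot_comb (n q r : V) (s : ℝ) :
    dot n ((1 - s) • q + s • r) = (1 - s) * dot n q + s * dot n r := by
  simp [dot]
  ring

theorem NC.nsq {p q r : V} (h : NC p q r) :
    0 < ((q 1 - p 1) * (r 2 - p 2) - (q 2 - p 2) * (r 1 - p 1)) ^ 2 +
     ((q 2 - p 2) * (r 0 - p 0) - (q 0 - p 0) * (r 2 - p 2)) ^ 2 +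
     ((q 0 - p 0) * (r 1 - p 1) - (q 1 - p 1) * (r 0 - p 0)) ^ 2 := by
  by_contra hc
  apply h
  set k0 := (q 1 - p 1) * (r 2 - p 2) - (q 2 - p 2) * (r 1 - p 1)
  set k1 := (q 2 - p 2) * (r 0 - p 0) - (q 0 - p 0) * (r 2 - p 2)
  set k2 := (q 0 - p 0) * (r 1 - p 1) - (q 1 - p 1) * (r 0 - p 0)
  have h0 : k0 ^ 2 + k1 ^ 2 + k2 ^ 2 ≤ 0 := not_lt.1 hc
  refine ⟨?_, ?_, ?_⟩
  · have : k0 ^ 2 ≤ 0 := by nlinarith [sq_nonneg k1, sq_nonneg k2]
    exact pow_eq_zero_iff two_ne_zero |>.1 (le_antisymm this (sq_nonneg _))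
  · have : k1 ^ 2 ≤ 0 := by nlinarith [sq_nonneg k0, sq_nonneg k2]
    exact pow_eq_zero_iff two_ne_zero |>.1 (le_antisymm this (sq_nonneg _))
  · have : k2 ^ 2 ≤ 0 := by nlinarith [sq_nonneg k0, sq_nonneg k1]
    exact pow_eq_zero_iff two_ne_zero |>.1 (le_antisymm this (sq_nonneg _))

/-- A functional is determined by three non collinear points it touches. -/
theorem uniq {p q r n n' : V} (h : NC p q r) (hp : dot n p = 1) (hq : dot n q = 1)
    (hr : dot n r = 1) (hp' : dot n' p = 1) (hq' : dot n' q = 1) (hr' : dot n' r = 1) :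
    n = n' := by
  have hk := h.nsq
  simp only [dot] at hp hq hr hp' hq' hr'
  set k0 := (q 1 - p 1) * (r 2 - p 2) - (q 2 - p 2) * (r 1 - p 1) with hk0
  set k1 := (q 2 - p 2) * (r 0 - p 0) - (q 0 - p 0) * (r 2 - p 2) with hk1
  set k2 := (q 0 - p 0) * (r 1 - p 1) - (q 1 - p 1) * (r 0 - p 0) with hk2
  clear_value k0 k1 k2
  -- `n` is parallel to `k`
  have hu : n 0 * (q 0 - p 0) + n 1 * (q 1 - p 1) + n 2 * (q 2 - p 2) = 0 := by linarith
  have hv : n 0 * (r 0 - p 0) + n 1 * (r 1 - p 1) + n 2 * (r 2 - p 2) = 0 := by linarith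
  have c0 : k1 * n 2 - k2 * n 1 = 0 := by
    rw [hk1, hk2]; linear_combination (r 0 - p 0) * hu - (q 0 - p 0) * hv
  have c1 : k2 * n 0 - k0 * n 2 = 0 := by
    rw [hk2, hk0]; linear_combination (r 1 - p 1) * hu - (q 1 - p 1) * hv
  have c2 : k0 * n 1 - k1 * n 0 = 0 := by
    rw [hk0, hk1]; linear_combination (r 2 - p 2) * hu - (q 2 - p 2) * hv
  have hkp : (n 0 * k0 + n 1 * k1 + n 2 * k2) * (k0 * p 0 + k1 * p 1 + k2 * p 2)
      = k0 ^ 2 + k1 ^ 2 + k2 ^ 2 := by
    linear_combination (k0 ^ 2 + k1 ^ 2 + k2 ^ 2) * hp - (k1 * p 2 - k2 * p 1) * c0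
      - (k2 * p 0 - k0 * p 2) * c1 - (k0 * p 1 - k1 * p 0) * c2
  have hD : k0 * p 0 + k1 * p 1 + k2 * p 2 ≠ 0 := by
    intro h0
    rw [h0, mul_zero] at hkp
    exact hk.ne hkp
  -- Cramer
  have m0 : (k0 * p 0 + k1 * p 1 + k2 * p 2) * (n 0 - n' 0) = 0 := by
    rw [hk0, hk1, hk2]
    linear_combination (q 1 * r 2 - q 2 * r 1) * (hp - hp') + (r 1 * p 2 - r 2 * p 1) * (hq - hq')
      + (p 1 * q 2 - p 2 * q 1) * (hr - hr')
  have m1 : (k0 * p 0 + k1 * p 1 + k2 * p 2) * (n 1 - n' 1) = 0 := by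
    rw [hk0, hk1, hk2]
    linear_combination (q 2 * r 0 - q 0 * r 2) * (hp - hp') + (r 2 * p 0 - r 0 * p 2) * (hq - hq')
      + (p 2 * q 0 - p 0 * q 2) * (hr - hr')
  have m2 : (k0 * p 0 + k1 * p 1 + k2 * p 2) * (n 2 - n' 2) = 0 := by
    rw [hk0, hk1, hk2]
    linear_combination (q 0 * r 1 - q 1 * r 0) * (hp - hp') + (r 0 * p 1 - r 1 * p 0) * (hq - hq')
      + (p 0 * q 1 - p 1 * q 0) * (hr - hr')
  refine ext3 ?_ ?_ ?_
  · rcases mul_eq_zero.1 m0 with h' | h'
    · exact absurd h' hD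
    · linarith
  · rcases mul_eq_zero.1 m1 with h' | h'
    · exact absurd h' hD
    · linarith
  · rcases mul_eq_zero.1 m2 with h' | h'
    · exact absurd h' hD
    · linarith

/-- Of three distinct collinear points one is strictly between the other two. -/
theorem coll_cases {p q r : V} (h : ¬ NC p q r) (hpq : p ≠ q) (hpr : p ≠ r) (hqr : q ≠ r) :
    (∃ s : ℝ, 0 < s ∧ s < 1 ∧ p = (1 - s) • q + s • r) ∨
    (∃ s : ℝ, 0 < s ∧ s < 1 ∧ q = (1 - s) • p + s • r) ∨
    (∃ s : ℝ, 0 < s ∧ s < 1 ∧ r = (1 - s) • p + s • q) := by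
  obtain ⟨e0, e1, e2⟩ := not_not.1 h
  have hu : 0 < (q 0 - p 0) ^ 2 + (q 1 - p 1) ^ 2 + (q 2 - p 2) ^ 2 := by
    by_contra hc
    apply hpq
    have h0 : (q 0 - p 0) ^ 2 + (q 1 - p 1) ^ 2 + (q 2 - p 2) ^ 2 ≤ 0 := not_lt.1 hc
    refine ext3 ?_ ?_ ?_
    · have : (q 0 - p 0) ^ 2 ≤ 0 := by nlinarith [sq_nonneg (q 1 - p 1), sq_nonneg (q 2 - p 2)]
      have := pow_eq_zero_iff two_ne_zero |>.1 (le_antisymm this (sq_nonneg _))
      linarith
    · have : (q 1 - p 1) ^ 2 ≤ 0 := by nlinarith [sq_nonneg (q 0 - p 0), sq_nonneg (q 2 - p 2)]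
      have := pow_eq_zero_iff two_ne_zero |>.1 (le_antisymm this (sq_nonneg _))
      linarith
    · have : (q 2 - p 2) ^ 2 ≤ 0 := by nlinarith [sq_nonneg (q 1 - p 1), sq_nonneg (q 0 - p 0)]
      have := pow_eq_zero_iff two_ne_zero |>.1 (le_antisymm this (sq_nonneg _))
      linarith
  set U := (q 0 - p 0) ^ 2 + (q 1 - p 1) ^ 2 + (q 2 - p 2) ^ 2 with hU
  obtain ⟨t, htU⟩ : ∃ t : ℝ, t * U = (q 0 - p 0) * (r 0 - p 0) + (q 1 - p 1) * (r 1 - p 1)
      + (q 2 - p 2) * (r 2 - p 2) :=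
    ⟨_, div_mul_cancel₀ _ hu.ne'⟩
  have r0 : r 0 - p 0 = t * (q 0 - p 0) := by
    have : U * (r 0 - p 0 - t * (q 0 - p 0)) = 0 := by
      have : U * (r 0 - p 0) - (t * U) * (q 0 - p 0) = 0 := by
        rw [htU, hU]
        linear_combination (q 2 - p 2) * e1 - (q 1 - p 1) * e2
      linear_combination this
    rcases mul_eq_zero.1 this with h | h
    · exact absurd h hu.ne'
    · linarith
  have r1 : r 1 - p 1 = t * (q 1 - p 1) := by
    have : U * (r 1 - p 1 - t * (q 1 - p 1)) = 0 := by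
      have : U * (r 1 - p 1) - (t * U) * (q 1 - p 1) = 0 := by
        rw [htU, hU]
        linear_combination (q 0 - p 0) * e2 - (q 2 - p 2) * e0
      linear_combination this
    rcases mul_eq_zero.1 this with h | h
    · exact absurd h hu.ne'
    · linarith
  have r2 : r 2 - p 2 = t * (q 2 - p 2) := by
    have : U * (r 2 - p 2 - t * (q 2 - p 2)) = 0 := by
      have : U * (r 2 - p 2) - (t * U) * (q 2 - p 2) = 0 := by
        rw [htU, hU]
        linear_combination (q 1 - p 1) * e0 - (q 0 - p 0) * e1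
      linear_combination this
    rcases mul_eq_zero.1 this with h | h
    · exact absurd h hu.ne'
    · linarith
  have ht0 : t ≠ 0 := by
    intro h0
    apply hpr
    rw [h0] at r0 r1 r2
    exact ext3 (by linarith) (by linarith) (by linarith)
  have ht1 : t ≠ 1 := by
    intro h0
    apply hqr
    rw [h0] at r0 r1 r2
    exact ext3 (by linarith) (by linarith) (by linarith)
  rcases lt_or_gt_of_ne ht0 with hneg | hpos
  · -- p between q and r
    left
    have h1t : 0 < 1 - t := by linarith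
    refine ⟨1 / (1 - t), by positivity, by rw [div_lt_one h1t]; linarith, ?_⟩
    have e : (1 : ℝ) - 1 / (1 - t) = -t / (1 - t) := by field_simp; ring
    have hc : ∀ P Q R : ℝ, R - P = t * (Q - P) → P = -t / (1 - t) * Q + 1 / (1 - t) * R := by
      intro P Q R h
      field_simp
      linear_combination -h
    rw [e]
    exact ext3 (by simpa using hc _ _ _ r0) (by simpa using hc _ _ _ r1)
      (by simpa using hc _ _ _ r2)
  · rcases lt_or_gt_of_ne ht1 with hlt | hgt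
    · right; right
      refine ⟨t, hpos, hlt, ?_⟩
      have hc : ∀ P Q R : ℝ, R - P = t * (Q - P) → R = (1 - t) * P + t * Q := by
        intro P Q R h
        linear_combination h
      exact ext3 (by simpa using hc _ _ _ r0) (by simpa using hc _ _ _ r1)
        (by simpa using hc _ _ _ r2)
    · right; left
      refine ⟨1 / t, by positivity, by rw [div_lt_one hpos]; linarith, ?_⟩
      have hc : ∀ P Q R : ℝ, R - P = t * (Q - P) → Q = (1 - 1 / t) * P + 1 / t * R := by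
        intro P Q R h
        field_simp
        linear_combination -h
      exact ext3 (by simpa using hc _ _ _ r0) (by simpa using hc _ _ _ r1)
        (by simpa using hc _ _ _ r2)

end Pool.Agent.H210R3.Illum
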