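import Mathlib
import Pool.Agent.H210R3.Illum

set_option autoImplicit false
set_option linter.all false
set_option linter.deprecated false

namespace Pool.Agent.H210R3.Illum

structure Cfg (ι : Type) where
  P : Set V
  a : ι → V
  x : ι → V
  ha : ∀ n ∈ P, ∀ i, dot n (a i) ≤ 1
  hx : ∀ n ∈ P, ∀ i, dot n (x i) ≤ 1
  cof : ∀ i j, i ≠ j → ∃ n ∈ P, dot n (a i) = 1 ∧ dot n (x j) = 1
  ncof : ∀ i, ∀ n ∈ P, ¬ (dot n (a i) = 1 ∧ dot n (x i) = 1)

variable {ι : Type}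

def Cfg.swap (c : Cfg ι) : Cfg ι where
  P := c.P
  a := c.x
  x := c.a
  ha := c.hx
  hx := c.ha
  cof := fun i j h => by
    obtain ⟨n, hn, h1, h2⟩ := c.cof j i h.symm
    exact ⟨n, hn, h2, h1⟩
  ncof := fun i n hn h => c.ncof i n hn ⟨h.2, h.1⟩

theorem between {n p q r : V} {s : ℝ} (h0 : 0 < s) (h1 : s < 1) (hp : p = (1 - s) • q + s • r)
    (hnp : dot n p = 1) (hq : dot n q ≤ 1) (hr : dot n r ≤ 1) : dot n q = 1 ∧ dot n r = 1 := by
  rw [hp, dot_comb] at hnp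
  constructor <;> nlinarith

theorem Cfg.a_inj (c : Cfg ι) {i j : ι} (h : i ≠ j) : c.a i ≠ c.a j := by
  intro e
  obtain ⟨n, hn, h1, h2⟩ := c.cof j i h.symm
  exact c.ncof i n hn ⟨e ▸ h1, h2⟩

theorem Cfg.a_nc (c : Cfg ι) {i j k : ι} (hij : i ≠ j) (hik : i ≠ k) (hjk : j ≠ k) :
    NC (c.a i) (c.a j) (c.a k) := by
  by_contra h
  rcases coll_cases h (c.a_inj hij) (c.a_inj hik) (c.a_inj hjk) with
    ⟨s, h0, h1, e⟩ | ⟨s, h0, h1, e⟩ | ⟨s, h0, h1, e⟩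
  · obtain ⟨n, hn, t1, t2⟩ := c.cof i j hij
    exact c.ncof j n hn ⟨(between h0 h1 e t1 (c.ha n hn _) (c.ha n hn _)).1, t2⟩
  · obtain ⟨n, hn, t1, t2⟩ := c.cof j i hij.symm
    exact c.ncof i n hn ⟨(between h0 h1 e t1 (c.ha n hn _) (c.ha n hn _)).1, t2⟩
  · obtain ⟨n, hn, t1, t2⟩ := c.cof k i hik.symm
    exact c.ncof i n hn ⟨(between h0 h1 e t1 (c.ha n hn _) (c.ha n hn _)).1, t2⟩

theorem ident (p q r A B : V) : ∃ g1 g2 g3 : ℝ, ∀ n : V,
    z p q r B * (dot n A - 1) - z p q r A * (dot n B - 1)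
      = g1 * (dot n p - 1) + g2 * (dot n q - 1) + g3 * (dot n r - 1) := by
  refine ⟨z p q r B - z p q r A + z p A B r - z p A B q, - z p A B r, z p A B q, fun n => ?_⟩
  simp only [z, dot]
  ring

theorem r1 {zA φB g2 g3 f2 f3 : ℝ} (hzA : 0 < zA) (hφB : φB ≤ 0) (hf2 : f2 ≤ 0) (hf3 : f3 ≤ 0)
    (h : - zA * φB = g2 * f2 + g3 * f3) (hg2 : 0 ≤ g2) (hg3 : 0 ≤ g3) (hne : 0 < g2 ∨ 0 < g3) :
    φB = 0 ∧ (f2 = 0 ∨ f3 = 0) := by
  have a1 : g2 * f2 ≤ 0 := mul_nonpos_of_nonneg_of_nonpos hg2 hf2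
  have a2 : g3 * f3 ≤ 0 := mul_nonpos_of_nonneg_of_nonpos hg3 hf3
  have a3 : zA * φB ≤ 0 := mul_nonpos_of_nonneg_of_nonpos hzA.le hφB
  have b1 : g2 * f2 = 0 := by linarith
  have b2 : g3 * f3 = 0 := by linarith
  have b3 : zA * φB = 0 := by linarith
  refine ⟨(mul_eq_zero.1 b3).resolve_left hzA.ne', ?_⟩
  rcases hne with h' | h'
  · exact Or.inl ((mul_eq_zero.1 b1).resolve_left h'.ne')
  · exact Or.inr ((mul_eq_zero.1 b2).resolve_left h'.ne')

theorem Cfg.coreB (c : Cfg ι) {j k l p q : ι} (pj : p ≠ j) (pk : p ≠ k) (pl : p ≠ l)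
    (qj : q ≠ j) (qk : q ≠ k) (ql : q ≠ l) (hpq : p ≠ q)
    (hp : 0 < z (c.x j) (c.x k) (c.x l) (c.a p)) (hq : 0 < z (c.x j) (c.x k) (c.x l) (c.a q)) :
    ∃ n ∈ c.P, dot n (c.a p) = 1 ∧ dot n (c.a q) = 1 ∧
      ((dot n (c.x j) = 1 ∧ dot n (c.x k) = 1) ∨ (dot n (c.x j) = 1 ∧ dot n (c.x l) = 1) ∨
        (dot n (c.x k) = 1 ∧ dot n (c.x l) = 1)) := by
  obtain ⟨g1, g2, g3, hg⟩ := ident (c.x j) (c.x k) (c.x l) (c.a p) (c.a q)
  generalize z (c.x j) (c.x k) (c.x l) (c.a p) = zA at hp hg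
  generalize z (c.x j) (c.x k) (c.x l) (c.a q) = zB at hq hg
  have h1p : 0 ≤ g2 → 0 ≤ g3 → (0 < g2 ∨ 0 < g3) →
      ∃ n ∈ c.P, dot n (c.a p) = 1 ∧ dot n (c.a q) = 1 ∧
      ((dot n (c.x j) = 1 ∧ dot n (c.x k) = 1) ∨ (dot n (c.x j) = 1 ∧ dot n (c.x l) = 1) ∨
        (dot n (c.x k) = 1 ∧ dot n (c.x l) = 1)) := by
    intro u1 u2 u3
    obtain ⟨n, hn, t1, t2⟩ := c.cof p j pj
    have e := hg n
    rw [t1, t2] at e
    obtain ⟨w1, w2⟩ := r1 (φB := dot n (c.a q) - 1) (f2 := dot n (c.x k) - 1)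
      (f3 := dot n (c.x l) - 1) hp (by linarith [c.ha n hn q]) (by linarith [c.hx n hn k])
      (by linarith [c.hx n hn l]) (by linarith) u1 u2 u3
    refine ⟨n, hn, t1, by linarith, ?_⟩
    rcases w2 with w | w
    · exact Or.inl ⟨t2, by linarith⟩
    · exact Or.inr (Or.inl ⟨t2, by linarith⟩)
  have h1n : g2 ≤ 0 → g3 ≤ 0 → (g2 < 0 ∨ g3 < 0) →
      ∃ n ∈ c.P, dot n (c.a p) = 1 ∧ dot n (c.a q) = 1 ∧
      ((dot n (c.x j) = 1 ∧ dot n (c.x k) = 1) ∨ (dot n (c.x j) = 1 ∧ dot n (c.x l) = 1) ∨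
        (dot n (c.x k) = 1 ∧ dot n (c.x l) = 1)) := by
    intro u1 u2 u3
    obtain ⟨n, hn, t1, t2⟩ := c.cof q j qj
    have e := hg n
    rw [t1, t2] at e
    obtain ⟨w1, w2⟩ := r1 (φB := dot n (c.a p) - 1) (f2 := dot n (c.x k) - 1)
      (f3 := dot n (c.x l) - 1) (g2 := -g2) (g3 := -g3) hq (by linarith [c.ha n hn p])
      (by linarith [c.hx n hn k])
      (by linarith [c.hx n hn l]) (by linarith) (by linarith) (by linarith)
      (by rcases u3 with u | u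
          · left; linarith
          · right; linarith)
    refine ⟨n, hn, by linarith, t1, ?_⟩
    rcases w2 with w | w
    · exact Or.inl ⟨t2, by linarith⟩
    · exact Or.inr (Or.inl ⟨t2, by linarith⟩)
  have h2p : 0 ≤ g1 → 0 ≤ g3 → (0 < g1 ∨ 0 < g3) →
      ∃ n ∈ c.P, dot n (c.a p) = 1 ∧ dot n (c.a q) = 1 ∧
      ((dot n (c.x j) = 1 ∧ dot n (c.x k) = 1) ∨ (dot n (c.x j) = 1 ∧ dot n (c.x l) = 1) ∨
        (dot n (c.x k) = 1 ∧ dot n (c.x l) = 1)) := by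
    intro u1 u2 u3
    obtain ⟨n, hn, t1, t2⟩ := c.cof p k pk
    have e := hg n
    rw [t1, t2] at e
    obtain ⟨w1, w2⟩ := r1 (φB := dot n (c.a q) - 1) (f2 := dot n (c.x j) - 1)
      (f3 := dot n (c.x l) - 1) hp (by linarith [c.ha n hn q]) (by linarith [c.hx n hn j])
      (by linarith [c.hx n hn l]) (by linarith) u1 u2 u3
    refine ⟨n, hn, t1, by linarith, ?_⟩
    rcases w2 with w | w
    · exact Or.inl ⟨by linarith, t2⟩
    · exact Or.inr (Or.inr ⟨t2, by linarith⟩)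
  have h2n : g1 ≤ 0 → g3 ≤ 0 → (g1 < 0 ∨ g3 < 0) →
      ∃ n ∈ c.P, dot n (c.a p) = 1 ∧ dot n (c.a q) = 1 ∧
      ((dot n (c.x j) = 1 ∧ dot n (c.x k) = 1) ∨ (dot n (c.x j) = 1 ∧ dot n (c.x l) = 1) ∨
        (dot n (c.x k) = 1 ∧ dot n (c.x l) = 1)) := by
    intro u1 u2 u3
    obtain ⟨n, hn, t1, t2⟩ := c.cof q k qk
    have e := hg n
    rw [t1, t2] at e
    obtain ⟨w1, w2⟩ := r1 (φB := dot n (c.a p) - 1) (f2 := dot n (c.x j) - 1)
      (f3 := dot n (c.x l) - 1) (g2 := -g1) (g3 := -g3) hq (by linarith [c.ha n hn p])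
      (by linarith [c.hx n hn j])
      (by linarith [c.hx n hn l]) (by linarith) (by linarith) (by linarith)
      (by rcases u3 with u | u
          · left; linarith
          · right; linarith)
    refine ⟨n, hn, by linarith, t1, ?_⟩
    rcases w2 with w | w
    · exact Or.inl ⟨by linarith, t2⟩
    · exact Or.inr (Or.inr ⟨t2, by linarith⟩)
  have h3p : 0 ≤ g1 → 0 ≤ g2 → (0 < g1 ∨ 0 < g2) →
      ∃ n ∈ c.P, dot n (c.a p) = 1 ∧ dot n (c.a q) = 1 ∧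
      ((dot n (c.x j) = 1 ∧ dot n (c.x k) = 1) ∨ (dot n (c.x j) = 1 ∧ dot n (c.x l) = 1) ∨
        (dot n (c.x k) = 1 ∧ dot n (c.x l) = 1)) := by
    intro u1 u2 u3
    obtain ⟨n, hn, t1, t2⟩ := c.cof p l pl
    have e := hg n
    rw [t1, t2] at e
    obtain ⟨w1, w2⟩ := r1 (φB := dot n (c.a q) - 1) (f2 := dot n (c.x j) - 1)
      (f3 := dot n (c.x k) - 1) hp (by linarith [c.ha n hn q]) (by linarith [c.hx n hn j])
      (by linarith [c.hx n hn k]) (by linarith) u1 u2 u3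
    refine ⟨n, hn, t1, by linarith, ?_⟩
    rcases w2 with w | w
    · exact Or.inr (Or.inl ⟨by linarith, t2⟩)
    · exact Or.inr (Or.inr ⟨by linarith, t2⟩)
  have h3n : g1 ≤ 0 → g2 ≤ 0 → (g1 < 0 ∨ g2 < 0) →
      ∃ n ∈ c.P, dot n (c.a p) = 1 ∧ dot n (c.a q) = 1 ∧
      ((dot n (c.x j) = 1 ∧ dot n (c.x k) = 1) ∨ (dot n (c.x j) = 1 ∧ dot n (c.x l) = 1) ∨
        (dot n (c.x k) = 1 ∧ dot n (c.x l) = 1)) := by
    intro u1 u2 u3
    obtain ⟨n, hn, t1, t2⟩ := c.cof q l ql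
    have e := hg n
    rw [t1, t2] at e
    obtain ⟨w1, w2⟩ := r1 (φB := dot n (c.a p) - 1) (f2 := dot n (c.x j) - 1)
      (f3 := dot n (c.x k) - 1) (g2 := -g1) (g3 := -g2) hq (by linarith [c.ha n hn p])
      (by linarith [c.hx n hn j])
      (by linarith [c.hx n hn k]) (by linarith) (by linarith) (by linarith)
      (by rcases u3 with u | u
          · left; linarith
          · right; linarith)
    refine ⟨n, hn, by linarith, t1, ?_⟩
    rcases w2 with w | w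
    · exact Or.inr (Or.inl ⟨by linarith, t2⟩)
    · exact Or.inr (Or.inr ⟨by linarith, t2⟩)
  rcases lt_trichotomy g1 0 with s1 | s1 | s1
  · rcases lt_trichotomy g2 0 with s2 | s2 | s2
    · exact h3n s1.le s2.le (Or.inl s1)
    · exact h3n s1.le s2.le (Or.inl s1)
    · rcases lt_trichotomy g3 0 with s3 | s3 | s3
      · exact h2n s1.le s3.le (Or.inl s1)
      · exact h2n s1.le s3.le (Or.inl s1)
      · exact h1p s2.le s3.le (Or.inl s2)
  · rcases lt_trichotomy g2 0 with s2 | s2 | s2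
    · exact h3n s1.le s2.le (Or.inr s2)
    · rcases lt_trichotomy g3 0 with s3 | s3 | s3
      · exact h2n s1.le s3.le (Or.inr s3)
      · exfalso
        subst s1 s2 s3
        apply c.a_inj hpq
        have e0 := hg 0
        have z0 : ∀ y : V, dot 0 y = 0 := fun y => by simp [dot]
        rw [z0, z0, z0, z0, z0] at e0
        have eAB : zA = zB := by linarith
        subst eAB
        have f : ∀ i : Fin 3, c.a p i = c.a q i := by
          intro i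
          have e := hg (EuclideanSpace.single i 1)
          have w : ∀ y : V, dot (EuclideanSpace.single i 1) y = y i := by
            intro y
            fin_cases i <;> simp [dot]
          rw [w, w, w, w, w] at e
          have : zA * (c.a p i - c.a q i) = 0 := by linarith
          have := (mul_eq_zero.1 this).resolve_left hp.ne'
          linarith
        exact ext3 (f 0) (f 1) (f 2)
      · exact h2p s1.ge s3.le (Or.inr s3)
    · exact h3p s1.ge s2.le (Or.inr s2)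
  · rcases lt_trichotomy g2 0 with s2 | s2 | s2
    · rcases lt_trichotomy g3 0 with s3 | s3 | s3
      · exact h1n s2.le s3.le (Or.inl s2)
      · exact h2p s1.le s3.ge (Or.inl s1)
      · exact h2p s1.le s3.le (Or.inl s1)
    · exact h3p s1.le s2.ge (Or.inl s1)
    · exact h3p s1.le s2.le (Or.inl s1)

theorem z_swap (p q r y : V) : z p r q y = - z p q r y := by
  simp only [z]
  ring

/-- Version with both points on the same side. -/
theorem Cfg.coreB' (c : Cfg ι) {j k l p q : ι} (pj : p ≠ j) (pk : p ≠ k) (pl : p ≠ l)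
    (qj : q ≠ j) (qk : q ≠ k) (ql : q ≠ l) (hpq : p ≠ q)
    (h : (0 < z (c.x j) (c.x k) (c.x l) (c.a p) ∧ 0 < z (c.x j) (c.x k) (c.x l) (c.a q)) ∨
      (z (c.x j) (c.x k) (c.x l) (c.a p) < 0 ∧ z (c.x j) (c.x k) (c.x l) (c.a q) < 0)) :
    ∃ n ∈ c.P, dot n (c.a p) = 1 ∧ dot n (c.a q) = 1 ∧
      ((dot n (c.x j) = 1 ∧ dot n (c.x k) = 1) ∨ (dot n (c.x j) = 1 ∧ dot n (c.x l) = 1) ∨
        (dot n (c.x k) = 1 ∧ dot n (c.x l) = 1)) := by
  rcases h with ⟨h1, h2⟩ | ⟨h1, h2⟩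
  · exact c.coreB pj pk pl qj qk ql hpq h1 h2
  · obtain ⟨n, hn, t1, t2, t3⟩ := c.coreB (j := j) (k := l) (l := k) pj pl pk qj ql qk hpq
      (by rw [z_swap]; linarith) (by rw [z_swap]; linarith)
    refine ⟨n, hn, t1, t2, ?_⟩
    rcases t3 with ⟨u, v⟩ | ⟨u, v⟩ | ⟨u, v⟩
    · exact Or.inr (Or.inl ⟨u, v⟩)
    · exact Or.inl ⟨u, v⟩
    · exact Or.inr (Or.inr ⟨v, u⟩)

/-- On a plane spanned by three touched points the functional is a multiple of `z`. -/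
theorem plane_sign {n p q r : V} (h : NC p q r) (hp : dot n p = 1) (hq : dot n q = 1)
    (hr : dot n r = 1) : ∃ ν : ℝ, ∀ y : V, dot n y - 1 = ν * z p q r y := by
  have hk := h.nsq
  simp only [dot] at hp hq hr
  simp only [dot, z]
  set k0 := (q 1 - p 1) * (r 2 - p 2) - (q 2 - p 2) * (r 1 - p 1) with hk0
  set k1 := (q 2 - p 2) * (r 0 - p 0) - (q 0 - p 0) * (r 2 - p 2) with hk1
  set k2 := (q 0 - p 0) * (r 1 - p 1) - (q 1 - p 1) * (r 0 - p 0) with hk2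
  clear_value k0 k1 k2
  have hu : n 0 * (q 0 - p 0) + n 1 * (q 1 - p 1) + n 2 * (q 2 - p 2) = 0 := by linarith
  have hv : n 0 * (r 0 - p 0) + n 1 * (r 1 - p 1) + n 2 * (r 2 - p 2) = 0 := by linarith
  have c0 : k1 * n 2 - k2 * n 1 = 0 := by
    rw [hk1, hk2]; linear_combination (r 0 - p 0) * hu - (q 0 - p 0) * hv
  have c1 : k2 * n 0 - k0 * n 2 = 0 := by
    rw [hk2, hk0]; linear_combination (r 1 - p 1) * hu - (q 1 - p 1) * hv
  have c2 : k0 * n 1 - k1 * n 0 = 0 := by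
    rw [hk0, hk1]; linear_combination (r 2 - p 2) * hu - (q 2 - p 2) * hv
  refine ⟨(n 0 * k0 + n 1 * k1 + n 2 * k2) / (k0 ^ 2 + k1 ^ 2 + k2 ^ 2), fun y => ?_⟩
  rw [div_mul_eq_mul_div, eq_div_iff hk.ne']
  linear_combination (k0 ^ 2 + k1 ^ 2 + k2 ^ 2) * hp
    + (k1 * (y 2 - p 2) - k2 * (y 1 - p 1)) * c0
      + (k2 * (y 0 - p 0) - k0 * (y 2 - p 2)) * c1 + (k0 * (y 1 - p 1) - k1 * (y 0 - p 0)) * c2

end Pool.Agent.H210R3.Illum
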