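import Mathlib
import Pool.Agent.H210R3.Illum2

set_option autoImplicit false
set_option linter.all false
set_option linter.deprecated false

namespace Pool.Agent.H210R3.Illum

variable {ι : Type}

/-- The relation used in a supporting plane `n0`. -/
def Cfg.R (c : Cfg ι) (j l i k : ι) : Prop :=
  ∃ n ∈ c.P, dot n (c.x j) = 1 ∧ dot n (c.x l) = 1 ∧ dot n (c.a i) = 1 ∧ dot n (c.a k) = 1

theorem Cfg.R_symm (c : Cfg ι) {j l i k : ι} (h : c.R j l i k) : c.R j l k i := by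
  obtain ⟨n, hn, h1, h2, h3, h4⟩ := h
  exact ⟨n, hn, h1, h2, h4, h3⟩

theorem Cfg.T1 (c : Cfg ι) {n0 : V} (hn0 : n0 ∈ c.P) {j l i k m : ι}
    (tj : dot n0 (c.a j) = 1) (tl : dot n0 (c.a l) = 1) (ti : dot n0 (c.a i) = 1)
    (tk : dot n0 (c.a k) = 1) (tm : dot n0 (c.a m) = 1) (hjl : j ≠ l)
    (hij : i ≠ j) (hil : i ≠ l) (hkj : k ≠ j) (hkl : k ≠ l) (hmj : m ≠ j) (hml : m ≠ l)
    (hik : i ≠ k) (him : i ≠ m) (hkm : k ≠ m) :
    c.R j l i k ∨ c.R j l i m ∨ c.R j l k m := by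
  have hxj : dot n0 (c.x j) < 1 :=
    lt_of_le_of_ne (c.hx n0 hn0 j) fun h => c.ncof j n0 hn0 ⟨tj, h⟩
  have hxl : dot n0 (c.x l) < 1 :=
    lt_of_le_of_ne (c.hx n0 hn0 l) fun h => c.ncof l n0 hn0 ⟨tl, h⟩
  obtain ⟨ν, hν⟩ := plane_sign (c.a_nc hik him hkm) ti tk tm
  have e1 := hν (c.x j)
  have e2 := hν (c.x l)
  have hs : (0 < z (c.a i) (c.a k) (c.a m) (c.x j) ∧ 0 < z (c.a i) (c.a k) (c.a m) (c.x l)) ∨
      (z (c.a i) (c.a k) (c.a m) (c.x j) < 0 ∧ z (c.a i) (c.a k) (c.a m) (c.x l) < 0) := by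
    generalize z (c.a i) (c.a k) (c.a m) (c.x j) = A at *
    generalize z (c.a i) (c.a k) (c.a m) (c.x l) = B at *
    have f1 : ν * A < 0 := by linarith
    have f2 : ν * B < 0 := by linarith
    rcases lt_trichotomy ν 0 with h | h | h
    · left
      exact ⟨by nlinarith, by nlinarith⟩
    · rw [h] at f1
      simp at f1
    · right
      exact ⟨by nlinarith, by nlinarith⟩
  obtain ⟨n, hn, s1, s2, s3⟩ := c.swap.coreB' (j := i) (k := k) (l := m) (p := j) (q := l)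
    hij.symm hkj.symm hmj.symm hil.symm hkl.symm hml.symm hjl hs
  change dot n (c.x j) = 1 at s1
  change dot n (c.x l) = 1 at s2
  rcases s3 with ⟨u, v⟩ | ⟨u, v⟩ | ⟨u, v⟩
  · exact Or.inl ⟨n, hn, s1, s2, u, v⟩
  · exact Or.inr (Or.inl ⟨n, hn, s1, s2, u, v⟩)
  · exact Or.inr (Or.inr ⟨n, hn, s1, s2, u, v⟩)

theorem Cfg.T2 (c : Cfg ι) {n0 : V} (hn0 : n0 ∈ c.P) {j l i k m : ι}
    (tj : dot n0 (c.a j) = 1) (tl : dot n0 (c.a l) = 1) (ti : dot n0 (c.a i) = 1)
    (tk : dot n0 (c.a k) = 1) (tm : dot n0 (c.a m) = 1) (hjl : j ≠ l)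
    (hik : i ≠ k) (him : i ≠ m) (hkm : k ≠ m) (h1 : c.R j l i k) (h2 : c.R j l i m) : False := by
  have hxj : dot n0 (c.x j) < 1 :=
    lt_of_le_of_ne (c.hx n0 hn0 j) fun h => c.ncof j n0 hn0 ⟨tj, h⟩
  have hxl : dot n0 (c.x l) < 1 :=
    lt_of_le_of_ne (c.hx n0 hn0 l) fun h => c.ncof l n0 hn0 ⟨tl, h⟩
  have hnc : NC (c.x j) (c.x l) (c.a i) := by
    by_contra h
    have d1 : c.x j ≠ c.x l := c.swap.a_inj hjl
    have d2 : c.x j ≠ c.a i := by
      intro e
      rw [e, ti] at hxj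
      exact lt_irrefl _ hxj
    have d3 : c.x l ≠ c.a i := by
      intro e
      rw [e, ti] at hxl
      exact lt_irrefl _ hxl
    rcases coll_cases h d1 d2 d3 with ⟨s, h0, h1, e⟩ | ⟨s, h0, h1, e⟩ | ⟨s, h0, h1, e⟩
    · obtain ⟨n, hn, t1, t2⟩ := c.cof l j hjl.symm
      exact c.ncof l n hn ⟨t1, (between h0 h1 e t2 (c.hx n hn _) (c.ha n hn _)).1⟩
    · obtain ⟨n, hn, t1, t2⟩ := c.cof j l hjl
      exact c.ncof j n hn ⟨t1, (between h0 h1 e t2 (c.hx n hn _) (c.ha n hn _)).1⟩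
    · have := (between h0 h1 e ti (c.hx n0 hn0 _) (c.hx n0 hn0 _)).1
      linarith
  obtain ⟨n, hn, a1, a2, a3, a4⟩ := h1
  obtain ⟨n', hn', b1, b2, b3, b4⟩ := h2
  have e : n = n' := uniq hnc a1 a2 a3 b1 b2 b3
  subst e
  have e2 : n = n0 := uniq (c.a_nc hik him hkm) a3 a4 b4 ti tk tm
  subst e2
  linarith

/-- A supporting plane touches at most six of the points `a i`. -/
theorem Cfg.plane_six (c : Cfg ι) {n0 : V} (hn0 : n0 ∈ c.P) (f : Fin 7 → ι)
    (hf : Function.Injective f) (ht : ∀ i, dot n0 (c.a (f i)) = 1) : False := by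
  have ne : ∀ {i j : Fin 7}, i ≠ j → f i ≠ f j := fun h e => h (hf e)
  have t1 : ∀ i k m : Fin 7, i ≠ 5 → i ≠ 6 → k ≠ 5 → k ≠ 6 → m ≠ 5 → m ≠ 6 → i ≠ k → i ≠ m →
      k ≠ m → c.R (f 5) (f 6) (f i) (f k) ∨ c.R (f 5) (f 6) (f i) (f m) ∨
        c.R (f 5) (f 6) (f k) (f m) := by
    intro i k m a1 a2 a3 a4 a5 a6 a7 a8 a9
    exact c.T1 hn0 (ht 5) (ht 6) (ht i) (ht k) (ht m) (ne (by decide)) (ne a1) (ne a2) (ne a3)
      (ne a4) (ne a5) (ne a6) (ne a7) (ne a8) (ne a9)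
  have t2 : ∀ i k m : Fin 7, i ≠ k → i ≠ m → k ≠ m → c.R (f 5) (f 6) (f i) (f k) →
      c.R (f 5) (f 6) (f i) (f m) → False := by
    intro i k m a7 a8 a9 h1 h2
    exact c.T2 hn0 (ht 5) (ht 6) (ht i) (ht k) (ht m) (ne (by decide)) (ne a7) (ne a8) (ne a9)
      h1 h2
  -- five points `0, …, 4`
  have key : ∀ u v w : Fin 7, u ≠ 0 → v ≠ 0 → w ≠ 0 → u ≠ 5 → u ≠ 6 → v ≠ 5 → v ≠ 6 → w ≠ 5 →
      w ≠ 6 → u ≠ v → u ≠ w → v ≠ w → ¬ c.R (f 5) (f 6) (f 0) (f u) →
      ¬ c.R (f 5) (f 6) (f 0) (f v) → ¬ c.R (f 5) (f 6) (f 0) (f w) → False := by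
    intro u v w a1 a2 a3 a4 a5 a6 a7 a8 a9 b1 b2 b3 n1 n2 n3
    have e1 : c.R (f 5) (f 6) (f u) (f v) := by
      rcases t1 0 u v (by decide) (by decide) a4 a5 a6 a7 a1.symm a2.symm b1 with h | h | h
      · exact absurd h n1
      · exact absurd h n2
      · exact h
    have e2 : c.R (f 5) (f 6) (f u) (f w) := by
      rcases t1 0 u w (by decide) (by decide) a4 a5 a8 a9 a1.symm a3.symm b2 with h | h | h
      · exact absurd h n1
      · exact absurd h n3
      · exact h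
    exact t2 u v w b1 b2 b3 e1 e2
  by_cases h1 : c.R (f 5) (f 6) (f 0) (f 1)
  · exact key 2 3 4 (by decide) (by decide) (by decide) (by decide) (by decide) (by decide)
      (by decide) (by decide) (by decide) (by decide) (by decide) (by decide)
      (fun h => t2 0 1 2 (by decide) (by decide) (by decide) h1 h)
      (fun h => t2 0 1 3 (by decide) (by decide) (by decide) h1 h)
      (fun h => t2 0 1 4 (by decide) (by decide) (by decide) h1 h)
  · by_cases h2 : c.R (f 5) (f 6) (f 0) (f 2)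
    · exact key 1 3 4 (by decide) (by decide) (by decide) (by decide) (by decide) (by decide)
        (by decide) (by decide) (by decide) (by decide) (by decide) (by decide) h1
        (fun h => t2 0 2 3 (by decide) (by decide) (by decide) h2 h)
        (fun h => t2 0 2 4 (by decide) (by decide) (by decide) h2 h)
    · by_cases h3 : c.R (f 5) (f 6) (f 0) (f 3)
      · exact key 1 2 4 (by decide) (by decide) (by decide) (by decide) (by decide) (by decide)
          (by decide) (by decide) (by decide) (by decide) (by decide) (by decide) h1 h2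
          (fun h => t2 0 3 4 (by decide) (by decide) (by decide) h3 h)
      · exact key 1 2 3 (by decide) (by decide) (by decide) (by decide) (by decide) (by decide)
          (by decide) (by decide) (by decide) (by decide) (by decide) (by decide) h1 h2 h3

/-- Finset form of `plane_six`. -/
theorem Cfg.plane_card (c : Cfg ι) {n0 : V} (hn0 : n0 ∈ c.P) (T : Finset ι)
    (hT : ∀ i ∈ T, dot n0 (c.a i) = 1) : T.card ≤ 6 := by
  classical
  by_contra h
  have h7 : 7 ≤ T.card := by omega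
  obtain ⟨S, hST, hS⟩ := Finset.exists_subset_card_eq h7
  let e := (Finset.equivFinOfCardEq hS).symm
  refine c.plane_six hn0 (fun i => (e i : ι)) ?_ ?_
  · intro i j hij
    exact e.injective (Subtype.ext hij)
  · intro i
    exact hT _ (hST (e i).2)

/-- A functional-uniqueness form: if all elements of `T` are touched by functionals touching
three fixed non collinear points, then `T` has at most six elements. -/
theorem Cfg.class_card (c : Cfg ι) {p q r : V} (h : NC p q r) (T : Finset ι)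
    (hT : ∀ i ∈ T, ∃ n ∈ c.P, dot n p = 1 ∧ dot n q = 1 ∧ dot n r = 1 ∧ dot n (c.a i) = 1) :
    T.card ≤ 6 := by
  rcases T.eq_empty_or_nonempty with he | ⟨i0, hi0⟩
  · simp [he]
  · obtain ⟨n, hn, h1, h2, h3, -⟩ := hT i0 hi0
    refine c.plane_card hn T fun i hi => ?_
    obtain ⟨n', hn', g1, g2, g3, g4⟩ := hT i hi
    rw [uniq h h1 h2 h3 g1 g2 g3]
    exact g4

end Pool.Agent.H210R3.Illum
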