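import Mathlib
import Pool.Agent.H210R3.Illum3

set_option autoImplicit false
set_option linter.all false
set_option linter.deprecated false

namespace Pool.Agent.H210R3.Illum

theorem nc_of_z1 {p q r y : V} (h : z p q r y ≠ 0) : NC p q y := by
  rintro ⟨e0, e1, e2⟩
  apply h
  simp only [z]
  linear_combination (-(r 0 - p 0)) * e0 - (r 1 - p 1) * e1 - (r 2 - p 2) * e2

theorem nc_of_z2 {p q r y : V} (h : z p q r y ≠ 0) : NC p r y := by
  rintro ⟨e0, e1, e2⟩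
  apply h
  simp only [z]
  linear_combination (q 0 - p 0) * e0 + (q 1 - p 1) * e1 + (q 2 - p 2) * e2

theorem nc_of_z3 {p q r y : V} (h : z p q r y ≠ 0) : NC q r y := by
  rintro ⟨e0, e1, e2⟩
  apply h
  simp only [z]
  linear_combination (q 0 - p 0) * e0 + (q 1 - p 1) * e1 + (q 2 - p 2) * e2

/-- Barycentric coordinates in the plane `z = 0`. -/
theorem zero_rep {p q r y : V} (h : NC p q r) (hz : z p q r y = 0) :
    ∃ b1 b2 b3 K : ℝ, 0 < K ∧ b1 + b2 + b3 = K ∧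
      ∀ i : Fin 3, K * y i = b1 * p i + b2 * q i + b3 * r i := by
  have hk := h.nsq
  simp only [z] at hz
  set k0 := (q 1 - p 1) * (r 2 - p 2) - (q 2 - p 2) * (r 1 - p 1) with hk0
  set k1 := (q 2 - p 2) * (r 0 - p 0) - (q 0 - p 0) * (r 2 - p 2) with hk1
  set k2 := (q 0 - p 0) * (r 1 - p 1) - (q 1 - p 1) * (r 0 - p 0) with hk2
  set b2 := ((y 1 - p 1) * (r 2 - p 2) - (y 2 - p 2) * (r 1 - p 1)) * k0 +
    ((y 2 - p 2) * (r 0 - p 0) - (y 0 - p 0) * (r 2 - p 2)) * k1 +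
    ((y 0 - p 0) * (r 1 - p 1) - (y 1 - p 1) * (r 0 - p 0)) * k2 with hb2
  set b3 := ((q 1 - p 1) * (y 2 - p 2) - (q 2 - p 2) * (y 1 - p 1)) * k0 +
    ((q 2 - p 2) * (y 0 - p 0) - (q 0 - p 0) * (y 2 - p 2)) * k1 +
    ((q 0 - p 0) * (y 1 - p 1) - (q 1 - p 1) * (y 0 - p 0)) * k2 with hb3
  clear_value k0 k1 k2 b2 b3
  refine ⟨k0 ^ 2 + k1 ^ 2 + k2 ^ 2 - b2 - b3, b2, b3, k0 ^ 2 + k1 ^ 2 + k2 ^ 2, hk, by ring, ?_⟩
  have e0 : (k0 ^ 2 + k1 ^ 2 + k2 ^ 2) * (y 0 - p 0) = b2 * (q 0 - p 0) + b3 * (r 0 - p 0)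
      + (k0 * (y 0 - p 0) + k1 * (y 1 - p 1) + k2 * (y 2 - p 2)) * k0 := by
    rw [hb2, hb3, hk0, hk1, hk2]
    ring
  have e1 : (k0 ^ 2 + k1 ^ 2 + k2 ^ 2) * (y 1 - p 1) = b2 * (q 1 - p 1) + b3 * (r 1 - p 1)
      + (k0 * (y 0 - p 0) + k1 * (y 1 - p 1) + k2 * (y 2 - p 2)) * k1 := by
    rw [hb2, hb3, hk0, hk1, hk2]
    ring
  have e2 : (k0 ^ 2 + k1 ^ 2 + k2 ^ 2) * (y 2 - p 2) = b2 * (q 2 - p 2) + b3 * (r 2 - p 2)
      + (k0 * (y 0 - p 0) + k1 * (y 1 - p 1) + k2 * (y 2 - p 2)) * k2 := by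
    rw [hb2, hb3, hk0, hk1, hk2]
    ring
  rw [hz, zero_mul, add_zero] at e0 e1 e2
  have g0 : (k0 ^ 2 + k1 ^ 2 + k2 ^ 2) * y 0
      = (k0 ^ 2 + k1 ^ 2 + k2 ^ 2 - b2 - b3) * p 0 + b2 * q 0 + b3 * r 0 := by
    linear_combination e0
  have g1 : (k0 ^ 2 + k1 ^ 2 + k2 ^ 2) * y 1
      = (k0 ^ 2 + k1 ^ 2 + k2 ^ 2 - b2 - b3) * p 1 + b2 * q 1 + b3 * r 1 := by
    linear_combination e1
  have g2 : (k0 ^ 2 + k1 ^ 2 + k2 ^ 2) * y 2
      = (k0 ^ 2 + k1 ^ 2 + k2 ^ 2 - b2 - b3) * p 2 + b2 * q 2 + b3 * r 2 := by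
    linear_combination e2
  intro i
  fin_cases i
  · exact g0
  · exact g1
  · exact g2

theorem not_nc_of {K b1 b2 : ℝ} {p q y : V} (hK : 0 < K) (hs : b1 + b2 = K)
    (h : ∀ i : Fin 3, K * y i = b1 * p i + b2 * q i) : ¬ NC p q y := by
  have h' : ∀ i : Fin 3, K * (y i - p i) = b2 * (q i - p i) := by
    intro i
    linear_combination h i + p i * hs
  apply not_not.2
  have cr : ∀ i j : Fin 3, (q i - p i) * (y j - p j) - (q j - p j) * (y i - p i) = 0 := by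
    intro i j
    have : K * ((q i - p i) * (y j - p j) - (q j - p j) * (y i - p i)) = 0 := by
      linear_combination (q i - p i) * h' j - (q j - p j) * h' i
    exact (mul_eq_zero.1 this).resolve_left hK.ne'
  exact ⟨cr 1 2, cr 2 0, cr 0 1⟩

/-- Points collinear with two given distinct points. -/
theorem line_param {p q y : V} (hpq : p ≠ q) (h : ¬ NC p q y) :
    ∃ t : ℝ, ∀ i : Fin 3, y i - p i = t * (q i - p i) := by
  obtain ⟨e0, e1, e2⟩ := not_not.1 h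
  have hne : ∃ i : Fin 3, q i - p i ≠ 0 := by
    by_contra hc
    push Not at hc
    apply hpq
    exact ext3 (by linarith [hc 0]) (by linarith [hc 1]) (by linarith [hc 2])
  have cr : ∀ i j : Fin 3, (q i - p i) * (y j - p j) = (q j - p j) * (y i - p i) := by
    intro i j
    fin_cases i <;> fin_cases j <;> simp <;> linarith
  obtain ⟨i, hi⟩ := hne
  refine ⟨(y i - p i) / (q i - p i), fun j => ?_⟩
  rw [div_mul_eq_mul_div, eq_div_iff hi]
  linarith [cr i j]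

theorem three_signs {b1 b2 b3 : ℝ} (n1 : b1 ≠ 0) (n2 : b2 ≠ 0) (n3 : b3 ≠ 0)
    (bad1 : ¬ ((0 < b2 ∧ 0 < b3) ∨ (b2 < 0 ∧ b3 < 0)))
    (bad2 : ¬ ((0 < b1 ∧ 0 < b3) ∨ (b1 < 0 ∧ b3 < 0)))
    (bad3 : ¬ ((0 < b1 ∧ 0 < b2) ∨ (b1 < 0 ∧ b2 < 0))) : False := by
  rcases lt_or_gt_of_ne n1 with u1 | u1
  · rcases lt_or_gt_of_ne n2 with u2 | u2
    · exact bad3 (Or.inr ⟨u1, u2⟩)
    · rcases lt_or_gt_of_ne n3 with u3 | u3
      · exact bad2 (Or.inr ⟨u1, u3⟩)
      · exact bad1 (Or.inl ⟨u2, u3⟩)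
  · rcases lt_or_gt_of_ne n2 with u2 | u2
    · rcases lt_or_gt_of_ne n3 with u3 | u3
      · exact bad1 (Or.inr ⟨u2, u3⟩)
      · exact bad2 (Or.inl ⟨u1, u3⟩)
    · exact bad3 (Or.inl ⟨u1, u2⟩)

theorem pos_pos {b2 b3 f2 f3 : ℝ} (h : (0 < b2 ∧ 0 < b3) ∨ (b2 < 0 ∧ b3 < 0)) (h2 : f2 ≤ 1)
    (h3 : f3 ≤ 1) (e : 0 = b2 * (f2 - 1) + b3 * (f3 - 1)) : f2 = 1 ∧ f3 = 1 := by
  have key : ∀ {c2 c3 : ℝ}, 0 < c2 → 0 < c3 → 0 = c2 * (f2 - 1) + c3 * (f3 - 1) →
      f2 = 1 ∧ f3 = 1 := by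
    intro c2 c3 u v e
    have a1 : c2 * (f2 - 1) ≤ 0 := mul_nonpos_of_nonneg_of_nonpos u.le (by linarith)
    have a2 : c3 * (f3 - 1) ≤ 0 := mul_nonpos_of_nonneg_of_nonpos v.le (by linarith)
    have b1 : c2 * (f2 - 1) = 0 := by linarith
    have b2 : c3 * (f3 - 1) = 0 := by linarith
    have d1 := (mul_eq_zero.1 b1).resolve_left u.ne'
    have d2 := (mul_eq_zero.1 b2).resolve_left v.ne'
    exact ⟨by linarith, by linarith⟩
  rcases h with ⟨u, v⟩ | ⟨u, v⟩
  · exact key u v e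
  · exact key (c2 := -b2) (c3 := -b3) (by linarith) (by linarith) (by linarith)

variable {ι : Type}

theorem Cfg.line_two (c : Cfg ι) {p q : V} (hpq : p ≠ q) (T : Finset ι)
    (hT : ∀ i ∈ T, ¬ NC p q (c.a i)) : T.card ≤ 2 := by
  classical
  by_contra h
  have h3 : 2 < T.card := by omega
  obtain ⟨i, hi, j, hj, k, hk, hij, hik, hjk⟩ := Finset.two_lt_card.1 h3
  obtain ⟨t1, e1⟩ := line_param hpq (hT i hi)
  obtain ⟨t2, e2⟩ := line_param hpq (hT j hj)
  obtain ⟨t3, e3⟩ := line_param hpq (hT k hk)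
  refine c.a_nc hij hik hjk ⟨?_, ?_, ?_⟩
  · linear_combination (c.a k 2 - c.a i 2) * (e2 1 - e1 1) - (c.a k 1 - c.a i 1) * (e2 2 - e1 2)
      + (t2 - t1) * (q 1 - p 1) * (e3 2 - e1 2) - (t2 - t1) * (q 2 - p 2) * (e3 1 - e1 1)
  · linear_combination (c.a k 0 - c.a i 0) * (e2 2 - e1 2) - (c.a k 2 - c.a i 2) * (e2 0 - e1 0)
      + (t2 - t1) * (q 2 - p 2) * (e3 0 - e1 0) - (t2 - t1) * (q 0 - p 0) * (e3 2 - e1 2)
  · linear_combination (c.a k 1 - c.a i 1) * (e2 0 - e1 0) - (c.a k 0 - c.a i 0) * (e2 1 - e1 1)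
      + (t2 - t1) * (q 0 - p 0) * (e3 1 - e1 1) - (t2 - t1) * (q 1 - p 1) * (e3 0 - e1 0)

/-- The class of indices on one side of the plane of three points `x`. -/
theorem Cfg.side_card (c : Cfg ι) {j k l : ι} (T : Finset ι)
    (hj : ∀ i ∈ T, i ≠ j) (hk : ∀ i ∈ T, i ≠ k) (hl : ∀ i ∈ T, i ≠ l)
    (hs : (∀ i ∈ T, 0 < z (c.x j) (c.x k) (c.x l) (c.a i)) ∨
      (∀ i ∈ T, z (c.x j) (c.x k) (c.x l) (c.a i) < 0)) : T.card ≤ 19 := by
  classical
  rcases T.eq_empty_or_nonempty with he | ⟨i0, hi0⟩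
  · simp [he]
  have hz0 : z (c.x j) (c.x k) (c.x l) (c.a i0) ≠ 0 := by
    rcases hs with hs | hs
    · exact (hs i0 hi0).ne'
    · exact (hs i0 hi0).ne
  let T1 := T.filter fun i => ∃ n ∈ c.P, dot n (c.x j) = 1 ∧ dot n (c.x k) = 1 ∧
    dot n (c.a i0) = 1 ∧ dot n (c.a i) = 1
  let T2 := T.filter fun i => ∃ n ∈ c.P, dot n (c.x j) = 1 ∧ dot n (c.x l) = 1 ∧
    dot n (c.a i0) = 1 ∧ dot n (c.a i) = 1
  let T3 := T.filter fun i => ∃ n ∈ c.P, dot n (c.x k) = 1 ∧ dot n (c.x l) = 1 ∧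
    dot n (c.a i0) = 1 ∧ dot n (c.a i) = 1
  have c1 : T1.card ≤ 6 := c.class_card (nc_of_z1 hz0) T1 fun i hi => (Finset.mem_filter.1 hi).2
  have c2 : T2.card ≤ 6 := c.class_card (nc_of_z2 hz0) T2 fun i hi => (Finset.mem_filter.1 hi).2
  have c3 : T3.card ≤ 6 := c.class_card (nc_of_z3 hz0) T3 fun i hi => (Finset.mem_filter.1 hi).2
  have hsub : T ⊆ {i0} ∪ (T1 ∪ (T2 ∪ T3)) := by
    intro i hi
    by_cases h : i = i0
    · simp [h]
    · have hh : (0 < z (c.x j) (c.x k) (c.x l) (c.a i0) ∧ 0 < z (c.x j) (c.x k) (c.x l) (c.a i)) ∨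
          (z (c.x j) (c.x k) (c.x l) (c.a i0) < 0 ∧ z (c.x j) (c.x k) (c.x l) (c.a i) < 0) := by
        rcases hs with hs | hs
        · exact Or.inl ⟨hs i0 hi0, hs i hi⟩
        · exact Or.inr ⟨hs i0 hi0, hs i hi⟩
      obtain ⟨n, hn, s1, s2, s3⟩ := c.coreB' (hj i0 hi0) (hk i0 hi0) (hl i0 hi0) (hj i hi)
        (hk i hi) (hl i hi) (Ne.symm h) hh
      rcases s3 with ⟨u, v⟩ | ⟨u, v⟩ | ⟨u, v⟩
      · apply Finset.mem_union_right
        apply Finset.mem_union_left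
        exact Finset.mem_filter.2 ⟨hi, n, hn, u, v, s1, s2⟩
      · apply Finset.mem_union_right
        apply Finset.mem_union_right
        apply Finset.mem_union_left
        exact Finset.mem_filter.2 ⟨hi, n, hn, u, v, s1, s2⟩
      · apply Finset.mem_union_right
        apply Finset.mem_union_right
        apply Finset.mem_union_right
        exact Finset.mem_filter.2 ⟨hi, n, hn, u, v, s1, s2⟩
  have h1 := Finset.card_le_card hsub
  have h2 := Finset.card_union_le {i0} (T1 ∪ (T2 ∪ T3))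
  have h3 := Finset.card_union_le T1 (T2 ∪ T3)
  have h4 := Finset.card_union_le T2 T3
  have h5 : ({i0} : Finset ι).card = 1 := Finset.card_singleton _
  omega

/-- The class of indices with `a i` in the plane of three points `x`. -/
theorem Cfg.zero_card (c : Cfg ι) {j k l : ι} (hjk : j ≠ k) (hjl : j ≠ l) (hkl : k ≠ l)
    (T : Finset ι) (hj : ∀ i ∈ T, i ≠ j) (hk : ∀ i ∈ T, i ≠ k) (hl : ∀ i ∈ T, i ≠ l)
    (hs : ∀ i ∈ T, z (c.x j) (c.x k) (c.x l) (c.a i) = 0) : T.card ≤ 6 := by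
  classical
  have hnc : NC (c.x j) (c.x k) (c.x l) := c.swap.a_nc hjk hjl hkl
  by_cases hP : ∃ n ∈ c.P, dot n (c.x j) = 1 ∧ dot n (c.x k) = 1 ∧ dot n (c.x l) = 1
  · obtain ⟨n, hn, h1, h2, h3⟩ := hP
    refine c.plane_card hn T fun i hi => ?_
    obtain ⟨ν, hν⟩ := plane_sign hnc h1 h2 h3
    have := hν (c.a i)
    rw [hs i hi] at this
    linarith
  · let T1 := T.filter fun i => ¬ NC (c.x j) (c.x k) (c.a i)
    let T2 := T.filter fun i => ¬ NC (c.x j) (c.x l) (c.a i)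
    let T3 := T.filter fun i => ¬ NC (c.x k) (c.x l) (c.a i)
    have c1 : T1.card ≤ 2 := c.line_two (c.swap.a_inj hjk) T1 fun i hi => (Finset.mem_filter.1 hi).2
    have c2 : T2.card ≤ 2 := c.line_two (c.swap.a_inj hjl) T2 fun i hi => (Finset.mem_filter.1 hi).2
    have c3 : T3.card ≤ 2 := c.line_two (c.swap.a_inj hkl) T3 fun i hi => (Finset.mem_filter.1 hi).2
    have hsub : T ⊆ T1 ∪ (T2 ∪ T3) := by
      intro i hi
      obtain ⟨b1, b2, b3, K, hK, hsum, hrep⟩ := zero_rep hnc (hs i hi)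
      have hdot : ∀ n : V, K * (dot n (c.a i) - 1) = b1 * (dot n (c.x j) - 1)
          + b2 * (dot n (c.x k) - 1) + b3 * (dot n (c.x l) - 1) := by
        intro n
        simp only [dot]
        linear_combination n 0 * hrep 0 + n 1 * hrep 1 + n 2 * hrep 2 + hsum
      have hzero : b1 = 0 ∨ b2 = 0 ∨ b3 = 0 := by
        by_contra hc
        push Not at hc
        obtain ⟨n1, n2, n3⟩ := hc
        obtain ⟨m1, hm1, s1, s1'⟩ := c.cof i j (hj i hi)
        obtain ⟨m2, hm2, s2, s2'⟩ := c.cof i k (hk i hi)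
        obtain ⟨m3, hm3, s3, s3'⟩ := c.cof i l (hl i hi)
        have q1 := hdot m1
        have q2 := hdot m2
        have q3 := hdot m3
        rw [s1, s1'] at q1
        rw [s2, s2'] at q2
        rw [s3, s3'] at q3
        -- two coefficients of the same sign force a functional touching all three points
        have bad1 : ¬ ((0 < b2 ∧ 0 < b3) ∨ (b2 < 0 ∧ b3 < 0)) := by
          intro h
          apply hP
          have f2 := c.hx m1 hm1 k
          have f3 := c.hx m1 hm1 l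
          have w := pos_pos h f2 f3 (by linarith)
          exact ⟨m1, hm1, s1', w.1, w.2⟩
        have bad2 : ¬ ((0 < b1 ∧ 0 < b3) ∨ (b1 < 0 ∧ b3 < 0)) := by
          intro h
          apply hP
          have f2 := c.hx m2 hm2 j
          have f3 := c.hx m2 hm2 l
          have w := pos_pos h f2 f3 (by linarith)
          exact ⟨m2, hm2, w.1, s2', w.2⟩
        have bad3 : ¬ ((0 < b1 ∧ 0 < b2) ∨ (b1 < 0 ∧ b2 < 0)) := by
          intro h
          apply hP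
          have f2 := c.hx m3 hm3 j
          have f3 := c.hx m3 hm3 k
          have w := pos_pos h f2 f3 (by linarith)
          exact ⟨m3, hm3, w.1, w.2, s3'⟩
        exact three_signs n1 n2 n3 bad1 bad2 bad3
      rcases hzero with h | h | h
      · apply Finset.mem_union_right
        apply Finset.mem_union_right
        refine Finset.mem_filter.2 ⟨hi, not_nc_of hK (b1 := b2) (b2 := b3) (by linarith) ?_⟩
        intro t
        rw [hrep t, h]
        ring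
      · apply Finset.mem_union_right
        apply Finset.mem_union_left
        refine Finset.mem_filter.2 ⟨hi, not_nc_of hK (b1 := b1) (b2 := b3) (by linarith) ?_⟩
        intro t
        rw [hrep t, h]
        ring
      · apply Finset.mem_union_left
        refine Finset.mem_filter.2 ⟨hi, not_nc_of hK (b1 := b1) (b2 := b2) (by linarith) ?_⟩
        intro t
        rw [hrep t, h]
        ring
    have h1 := Finset.card_le_card hsub
    have h3 := Finset.card_union_le T1 (T2 ∪ T3)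
    have h4 := Finset.card_union_le T2 T3
    omega

/-- There is no configuration with forty-eight indices. -/
theorem no_cfg (c : Cfg (Fin 48)) : False := by
  classical
  let U := (Finset.univ : Finset (Fin 48)) \ {0, 1, 2}
  have hU : ∀ i ∈ U, i ≠ 0 ∧ i ≠ 1 ∧ i ≠ 2 := by
    intro i hi
    simpa [U, not_or] using hi
  let f : Fin 48 → ℝ := fun i => z (c.x 0) (c.x 1) (c.x 2) (c.a i)
  let Up := U.filter fun i => 0 < f i
  let Um := U.filter fun i => f i < 0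
  let Uz := U.filter fun i => f i = 0
  have cp : Up.card ≤ 19 := c.side_card (j := 0) (k := 1) (l := 2) Up
    (fun i hi => (hU i (Finset.mem_filter.1 hi).1).1)
    (fun i hi => (hU i (Finset.mem_filter.1 hi).1).2.1)
    (fun i hi => (hU i (Finset.mem_filter.1 hi).1).2.2)
    (Or.inl fun i hi => (Finset.mem_filter.1 hi).2)
  have cm : Um.card ≤ 19 := c.side_card (j := 0) (k := 1) (l := 2) Um
    (fun i hi => (hU i (Finset.mem_filter.1 hi).1).1)
    (fun i hi => (hU i (Finset.mem_filter.1 hi).1).2.1)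
    (fun i hi => (hU i (Finset.mem_filter.1 hi).1).2.2)
    (Or.inr fun i hi => (Finset.mem_filter.1 hi).2)
  have cz : Uz.card ≤ 6 := c.zero_card (j := 0) (k := 1) (l := 2) (by decide) (by decide)
    (by decide) Uz
    (fun i hi => (hU i (Finset.mem_filter.1 hi).1).1)
    (fun i hi => (hU i (Finset.mem_filter.1 hi).1).2.1)
    (fun i hi => (hU i (Finset.mem_filter.1 hi).1).2.2)
    (fun i hi => (Finset.mem_filter.1 hi).2)
  have hsub : U ⊆ Up ∪ (Um ∪ Uz) := by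
    intro i hi
    rcases lt_trichotomy (f i) 0 with h | h | h
    · exact Finset.mem_union_right _ (Finset.mem_union_left _ (Finset.mem_filter.2 ⟨hi, h⟩))
    · exact Finset.mem_union_right _ (Finset.mem_union_right _ (Finset.mem_filter.2 ⟨hi, h⟩))
    · exact Finset.mem_union_left _ (Finset.mem_filter.2 ⟨hi, h⟩)
  have hUc : U.card = 45 := by
    simp only [U]
    rw [Finset.card_sdiff_of_subset (Finset.subset_univ _)]
    rfl
  have h1 := Finset.card_le_card hsub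
  have h3 := Finset.card_union_le Up (Um ∪ Uz)
  have h4 := Finset.card_union_le Um Uz
  omega

end Pool.Agent.H210R3.Illum
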