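import Mathlib
import Pool.Agent.H210R3.Illum4

set_option autoImplicit false
set_option linter.all false
set_option linter.deprecated false

namespace Pool.Agent.H210R3.Illum

open Filter Topology

theorem repr3 (y : V) : y = y 0 • EuclideanSpace.single 0 (1 : ℝ)
    + y 1 • EuclideanSpace.single 1 (1 : ℝ) + y 2 • EuclideanSpace.single 2 (1 : ℝ) := by
  ext i
  fin_cases i <;> simp

/-- The vector of a continuous linear functional divided by `c`. -/
noncomputable def vec (g : StrongDual ℝ V) (c : ℝ) : V :=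
  !₂[g (EuclideanSpace.single 0 1) / c, g (EuclideanSpace.single 1 1) / c,
    g (EuclideanSpace.single 2 1) / c]

theorem dot_vec (g : StrongDual ℝ V) (c : ℝ) (y : V) : dot (vec g c) y = g y / c := by
  conv_rhs => rw [repr3 y]
  simp only [map_add, map_smul, smul_eq_mul, dot, vec]
  simp
  ring

theorem dot_sub (n y w : V) : dot n (y - w) = dot n y - dot n w := by
  simp [dot]
  ring

theorem dot_add (n y w : V) : dot n (y + w) = dot n y + dot n w := by
  simp [dot]
  ring

theorem dot_smul (n y : V) (c : ℝ) : dot n (c • y) = c * dot n y := by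
  simp [dot]
  ring

/-- Two boundary points whose midpoint is not interior have a common supporting functional. -/
theorem common_support {K : Set V} (hc : Convex ℝ K) {a0 : V} (h0 : a0 ∈ interior K) {p q : V}
    (hp : p ∈ K) (hq : q ∈ K)
    (hm : (1 - (1 / 2 : ℝ)) • q + (1 / 2 : ℝ) • p ∉ interior K) :
    ∃ n : V, (∀ y ∈ K, dot n (y - a0) ≤ 1) ∧ dot n (p - a0) = 1 ∧ dot n (q - a0) = 1 := by
  obtain ⟨g, hg⟩ := geometric_hahn_banach_open_point hc.interior isOpen_interior hm
  set m := (1 - (1 / 2 : ℝ)) • q + (1 / 2 : ℝ) • p with hmdef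
  have hK : ∀ y ∈ K, g y ≤ g m := by
    intro y hy
    have hcl : y ∈ closure (interior K) := by
      rw [hc.closure_interior_eq_closure_of_nonempty_interior ⟨a0, h0⟩]
      exact subset_closure hy
    have hclosed : IsClosed {y : V | g y ≤ g m} := isClosed_le g.continuous continuous_const
    exact closure_minimal (fun z hz => (hg z hz).le) hclosed hcl
  have hcpos : 0 < g m - g a0 := by linarith [hg a0 h0]
  have hgm : g m = (1 / 2) * g q + (1 / 2) * g p := by
    rw [hmdef]
    simp only [map_add, map_smul, smul_eq_mul]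
    ring
  have hgp : g p = g m := by
    have := hK p hp
    have := hK q hq
    linarith
  have hgq : g q = g m := by
    have := hK p hp
    have := hK q hq
    linarith
  refine ⟨vec g (g m - g a0), ?_, ?_, ?_⟩
  · intro y hy
    rw [dot_vec, map_sub, div_le_one hcpos]
    linarith [hK y hy]
  · rw [dot_vec, map_sub, hgp, div_self hcpos.ne']
  · rw [dot_vec, map_sub, hgq, div_self hcpos.ne']

/-- An interior point is not touched. -/
theorem interior_lt {K : Set V} {a0 : V} {n p : V} (hn : ∀ y ∈ K, dot n (y - a0) ≤ 1)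
    (hp : p ∈ interior K) : dot n (p - a0) ≠ 1 := by
  intro h
  have hcont : Tendsto (fun η : ℝ => p + η • (p - a0)) (𝓝[>] 0) (𝓝 p) := by
    have : Tendsto (fun η : ℝ => p + η • (p - a0)) (𝓝 0) (𝓝 (p + (0 : ℝ) • (p - a0))) := by
      apply Continuous.tendsto
      fun_prop
    rw [zero_smul, add_zero] at this
    exact this.mono_left nhdsWithin_le_nhds
  have hev := hcont.eventually (isOpen_interior.mem_nhds hp)
  obtain ⟨η, hη, hη0⟩ := (hev.and self_mem_nhdsWithin).exists
  have h1 := hn _ (interior_subset hη)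
  have h2 : dot n (p + η • (p - a0) - a0) = (1 + η) * dot n (p - a0) := by
    have : p + η • (p - a0) - a0 = (p - a0) + η • (p - a0) := by abel
    rw [this, dot_add, dot_smul]
    ring
  rw [h2, h] at h1
  have : (0 : ℝ) < η := hη0
  linarith

theorem bound (K : Set V) (hK : IsCompact K) (hc : Convex ℝ K) (hi : (interior K).Nonempty)
    (A : Set V)
    (hA : A ⊆ frontier K ∧
          ∀ x ∈ frontier K, ∃ a ∈ A, ∃ ε : ℝ, 0 < ε ∧ ε < 1 ∧
            (1 - ε) • x + ε • a ∈ interior K)
    (hprim : ∀ B : Set V, B ⊆ A → B ≠ A →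
          ¬ (B ⊆ frontier K ∧
            ∀ x ∈ frontier K, ∃ b ∈ B, ∃ ε : ℝ, 0 < ε ∧ ε < 1 ∧
              (1 - ε) • x + ε • b ∈ interior K)) :
    A.encard ≤ ((47 : ℕ) : ℕ∞) := by
  classical
  by_contra hcon
  obtain ⟨a0, ha0⟩ := hi
  have hfr : frontier K ⊆ K := hK.isClosed.frontier_subset
  -- private points
  have hpriv : ∀ a ∈ A, ∃ x ∈ frontier K,
      (∃ ε : ℝ, 0 < ε ∧ ε < 1 ∧ (1 - ε) • x + ε • a ∈ interior K) ∧
      ∀ b ∈ A, b ≠ a → ∀ ε : ℝ, 0 < ε → ε < 1 → (1 - ε) • x + ε • b ∉ interior K := by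
    intro a ha
    have h1 := hprim (A \ {a}) Set.diff_subset (by
      intro h
      have : a ∈ A \ {a} := by
        rw [h]
        exact ha
      exact this.2 rfl)
    have h2 : ¬ ∀ x ∈ frontier K, ∃ b ∈ A \ {a}, ∃ ε : ℝ, 0 < ε ∧ ε < 1 ∧
        (1 - ε) • x + ε • b ∈ interior K := fun h => h1 ⟨Set.diff_subset.trans hA.1, h⟩
    push Not at h2
    obtain ⟨x, hx, h3⟩ := h2
    refine ⟨x, hx, ?_, ?_⟩
    · obtain ⟨b, hb, ε, e0, e1, e2⟩ := hA.2 x hx
      by_cases hab : b = a
      · subst hab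
        exact ⟨ε, e0, e1, e2⟩
      · exact absurd e2 (h3 b ⟨hb, hab⟩ ε e0 e1)
    · intro b hb hba ε e0 e1
      exact h3 b ⟨hb, hba⟩ ε e0 e1
  choose! X hX1 hX2 hX3 using hpriv
  -- forty-eight points
  have hle : ((48 : ℕ) : ℕ∞) ≤ A.encard := by
    have h := not_le.1 hcon
    have : ((47 : ℕ) : ℕ∞) + 1 ≤ A.encard := Order.add_one_le_of_lt h
    exact_mod_cast this
  obtain ⟨t, htA, ht⟩ := Set.exists_subset_encard_eq hle
  have hfin : t.Finite := Set.finite_of_encard_eq_coe ht
  have hcard : hfin.toFinset.card = 48 := by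
    have := hfin.encard_eq_coe_toFinset_card
    rw [ht] at this
    exact_mod_cast this.symm
  let e := (Finset.equivFinOfCardEq hcard).symm
  let f : Fin 48 → V := fun i => (e i : V)
  have hfA : ∀ i, f i ∈ A := fun i => htA (hfin.mem_toFinset.1 (e i).2)
  have hfinj : ∀ {i j : Fin 48}, i ≠ j → f i ≠ f j := by
    intro i j hij h
    exact hij (e.injective (Subtype.ext h))
  refine no_cfg
    { P := {n | ∀ y ∈ K, dot n (y - a0) ≤ 1}
      a := fun i => f i - a0
      x := fun i => X (f i) - a0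
      ha := fun n hn i => hn _ (hfr (hA.1 (hfA i)))
      hx := fun n hn i => hn _ (hfr (hX1 _ (hfA i)))
      cof := ?_
      ncof := ?_ }
  · intro i j hij
    have hm := hX3 (f j) (hfA j) (f i) (hfA i) (hfinj hij) (1 / 2) (by norm_num) (by norm_num)
    obtain ⟨n, h1, h2, h3⟩ := common_support hc ha0 (hfr (hA.1 (hfA i))) (hfr (hX1 _ (hfA j))) hm
    exact ⟨n, h1, h2, h3⟩
  · rintro i n hn ⟨h1, h2⟩
    obtain ⟨ε, e0, e1, e2⟩ := hX2 (f i) (hfA i)
    refine interior_lt hn e2 ?_
    have : (1 - ε) • X (f i) + ε • f i - a0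
        = (1 - ε) • (X (f i) - a0) + ε • (f i - a0) := by
      rw [smul_sub, smul_sub, sub_smul, one_smul, sub_smul, one_smul]
      abel
    rw [this, dot_comb, h1, h2]
    ring

end Pool.Agent.H210R3.Illum
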