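import Mathlib

set_option autoImplicit false
set_option linter.all false
set_option linter.deprecated false

/-!
# The special orthogonal group of `ℝ³` is path connected

Every rotation is a product of an even number of Householder reflections, and a product of two
reflections can be joined to the identity.
-/

namespace Pool.Agent.H210R3.SO3

open Matrix Submodule

abbrev E := EuclideanSpace ℝ (Fin 3)

/-- The Householder matrix of `w` (the identity for `w = 0`). -/
noncomputable def hh (w : E) : Matrix (Fin 3) (Fin 3) ℝ :=
  1 - (2 / ‖w‖ ^ 2) • Matrix.of (fun i j => w i * w j)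

theorem norm_sq3 (w : E) : ‖w‖ ^ 2 = w 0 ^ 2 + w 1 ^ 2 + w 2 ^ 2 := by
  rw [EuclideanSpace.norm_sq_eq]
  simp [Fin.sum_univ_three]

theorem hh_apply (w x : E) : Matrix.toEuclideanLin (hh w) x = (ℝ ∙ w)ᗮ.reflection x := by
  rw [Submodule.reflection_orthogonal_apply, Submodule.reflection_singleton_apply]
  ext i
  have hin : inner ℝ w x = w 0 * x 0 + w 1 * x 1 + w 2 * x 2 := by
    simp [PiLp.inner_apply, Fin.sum_univ_three]
    ring
  simp only [Matrix.toEuclideanLin_apply, hh, Matrix.sub_mulVec, Matrix.one_mulVec,
    Matrix.smul_mulVec]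
  simp [Matrix.mulVec, dotProduct, Fin.sum_univ_three, hin]
  ring

theorem hh_det {w : E} (hw : w ≠ 0) : (hh w).det = -1 := by
  have hs : ‖w‖ ^ 2 ≠ 0 := pow_ne_zero _ (norm_ne_zero_iff.2 hw)
  have h3 := norm_sq3 w
  rw [h3] at hs
  rw [Matrix.det_fin_three]
  simp only [hh, h3]
  simp [Matrix.one_apply]
  field_simp
  ring

theorem hh_mul (w : E) : hh w * hh w = 1 := by
  apply Matrix.toEuclideanLin.injective
  ext1 x
  have h : Matrix.toEuclideanLin (hh w * hh w) x
      = Matrix.toEuclideanLin (hh w) (Matrix.toEuclideanLin (hh w) x) := by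
    simp [Matrix.toEuclideanLin_apply, Matrix.mulVec_mulVec]
  rw [h, hh_apply, hh_apply, Submodule.reflection_reflection]
  simp [Matrix.toEuclideanLin_apply]

theorem hh_transpose (w : E) : (hh w)ᵀ = hh w := by
  ext i j
  simp only [hh, Matrix.transpose_apply, Matrix.sub_apply, Matrix.smul_apply, Matrix.of_apply,
    Matrix.one_apply, smul_eq_mul]
  rw [mul_comm (w j) (w i)]
  simp [eq_comm]

theorem hh_orth (w : E) : hh w ∈ Matrix.orthogonalGroup (Fin 3) ℝ := by
  rw [Matrix.mem_orthogonalGroup_iff]
  exact (congrArg (fun M => hh w * M) (hh_transpose w)).trans (hh_mul w)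

/-- The special orthogonal group, as a set of matrices. -/
abbrev SO : Set (Matrix (Fin 3) (Fin 3) ℝ) :=
  {A | A ∈ Matrix.specialOrthogonalGroup (Fin 3) ℝ}

theorem hh_two {v w : E} (hv : v ≠ 0) (hw : w ≠ 0) : hh v * hh w ∈ SO := by
  refine Matrix.mem_specialOrthogonalGroup_iff.2 ⟨mul_mem (hh_orth v) (hh_orth w), ?_⟩
  rw [Matrix.det_mul, hh_det hv, hh_det hw]
  norm_num

theorem hh_cont : ContinuousOn hh {(0 : E)}ᶜ := by
  unfold hh
  apply ContinuousOn.sub continuousOn_const
  apply ContinuousOn.fun_smul
  · apply ContinuousOn.div continuousOn_const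
    · fun_prop
    · intro x hx
      exact pow_ne_zero _ (norm_ne_zero_iff.2 hx)
  · apply Continuous.continuousOn
    refine continuous_matrix fun i j => ?_
    simp only [Matrix.of_apply]
    fun_prop

theorem joined_two {v w : E} (hv : v ≠ 0) (hw : w ≠ 0) : JoinedIn SO (hh v * hh w) 1 := by
  have hrank : 1 < Module.rank ℝ E := by
    rw [← Module.finrank_eq_rank]
    simp
  have hpc := isPathConnected_compl_singleton_of_one_lt_rank (E := E) hrank 0
  have hj : JoinedIn {(0 : E)}ᶜ w v := hpc.joinedIn w hw v hv
  have h2 := hj.map_continuousOn (f := fun u => hh v * hh u)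
    ((continuousOn_const).mul hh_cont)
  simp only [hh_mul] at h2
  refine h2.mono ?_
  rintro _ ⟨u, hu, rfl⟩
  exact hh_two hv hu

/-- The linear isometry equivalence of an orthogonal matrix. -/
noncomputable def toIso {A : Matrix (Fin 3) (Fin 3) ℝ}
    (hA : A ∈ Matrix.orthogonalGroup (Fin 3) ℝ) : E ≃ₗᵢ[ℝ] E :=
  LinearIsometry.toLinearIsometryEquiv
    { toLinearMap := Matrix.toEuclideanLin A
      norm_map' := by
        intro x
        have hA' : Aᵀ * A = 1 := by
          have := (Matrix.mem_orthogonalGroup_iff' (n := Fin 3) (R := ℝ)).1 hA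
          exact this
        have h1 : ‖Matrix.toEuclideanLin A x‖ ^ 2 = ‖x‖ ^ 2 := by
          rw [← real_inner_self_eq_norm_sq, ← real_inner_self_eq_norm_sq]
          simp only [EuclideanSpace.inner_eq_star_dotProduct, Matrix.toEuclideanLin_apply,
            star_trivial]
          rw [Matrix.dotProduct_mulVec, Matrix.vecMul_mulVec, hA', Matrix.vecMul_one]
        exact (pow_left_inj₀ (norm_nonneg _) (norm_nonneg _) two_ne_zero).1 h1 } rfl

theorem toIso_apply {A : Matrix (Fin 3) (Fin 3) ℝ}
    (hA : A ∈ Matrix.orthogonalGroup (Fin 3) ℝ) (x : E) :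
    toIso hA x = Matrix.toEuclideanLin A x := rfl

theorem toEuclideanLin_mul_apply (A B : Matrix (Fin 3) (Fin 3) ℝ) (x : E) :
    Matrix.toEuclideanLin (A * B) x = Matrix.toEuclideanLin A (Matrix.toEuclideanLin B x) := by
  simp [Matrix.toEuclideanLin_apply, Matrix.mulVec_mulVec]

theorem list_matrix (l : List E) (x : E) :
    (l.map fun v => (ℝ ∙ v)ᗮ.reflection).prod x =
      Matrix.toEuclideanLin (l.map hh).prod x := by
  induction l generalizing x with
  | nil => simp [Matrix.toEuclideanLin_apply]
  | cons a t ih =>
    simp only [List.map_cons, List.prod_cons]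
    rw [toEuclideanLin_mul_apply, ← ih, hh_apply]
    rfl

/-- A product of Householder matrices of determinant `1` is joined to the identity. -/
theorem joined_list (n : ℕ) : ∀ l : List E, l.length ≤ n → (l.map hh).prod.det = 1 →
    JoinedIn SO (l.map hh).prod 1 := by
  induction n using Nat.strong_induction_on with
  | _ n ih =>
    intro l hl hd
    have hh0 : hh 0 = 1 := by
      ext i j
      simp [hh]
    match l, hl, hd with
    | [], _, _ => simpa using JoinedIn.refl (F := SO) (one_mem (Matrix.specialOrthogonalGroup (Fin 3) ℝ))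
    | [a], _, hd =>
      by_cases ha : a = 0
      · subst ha
        simp only [List.map_cons, List.map_nil, List.prod_cons, List.prod_nil, mul_one, hh0]
        exact JoinedIn.refl (F := SO) (one_mem (Matrix.specialOrthogonalGroup (Fin 3) ℝ))
      · simp only [List.map_cons, List.map_nil, List.prod_cons, List.prod_nil, mul_one] at hd
        rw [hh_det ha] at hd
        norm_num at hd
    | a :: b :: t, hl, hd =>
      simp only [List.length_cons] at hl
      by_cases ha : a = 0
      · subst ha
        have := ih (n - 1) (by omega) (b :: t) (by simp; omega) (by simpa [hh0] using hd)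
        simpa [hh0] using this
      · by_cases hb : b = 0
        · subst hb
          have := ih (n - 1) (by omega) (a :: t) (by simp; omega) (by simpa [hh0] using hd)
          simpa [hh0] using this
        · have hd' : (t.map hh).prod.det = 1 := by
            simp only [List.map_cons, List.prod_cons, Matrix.det_mul, hh_det ha, hh_det hb] at hd
            linarith
          have h1 := ih (n - 2) (by omega) t (by omega) hd'
          have h2 := joined_two ha hb
          have hcont : Continuous (fun M : Matrix (Fin 3) (Fin 3) ℝ => M * (t.map hh).prod) := by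
            fun_prop
          have h3 := h2.map hcont
          rw [one_mul] at h3
          have h4 : JoinedIn SO (hh a * hh b * (t.map hh).prod) (t.map hh).prod := by
            refine h3.mono ?_
            rintro _ ⟨u, hu, rfl⟩
            exact (Matrix.specialOrthogonalGroup (Fin 3) ℝ).mul_mem hu h1.source_mem
          have h5 := h4.trans h1
          simpa [mul_assoc] using h5

/-- Every rotation of `ℝ³` is joined to the identity in the special orthogonal group. -/
theorem joined_one {A : Matrix (Fin 3) (Fin 3) ℝ} (hA : A ∈ SO) : JoinedIn SO A 1 := by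
  have hA' := Matrix.mem_specialOrthogonalGroup_iff.1 hA
  obtain ⟨l, -, hl⟩ := (toIso hA'.1).reflections_generate_dim
  have hAl : A = (l.map hh).prod := by
    apply Matrix.toEuclideanLin.injective
    ext1 x
    rw [← list_matrix, ← hl]
    rfl
  have := joined_list l.length l le_rfl (by rw [← hAl]; exact hA'.2)
  rwa [← hAl] at this

theorem joined {A B : Matrix (Fin 3) (Fin 3) ℝ} (hA : A ∈ SO) (hB : B ∈ SO) :
    JoinedIn SO A B :=
  (joined_one hA).trans (joined_one hB).symm

end Pool.Agent.H210R3.SO3
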