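import Mathlib
import Pool.Agent.H210R3.SO3

set_option autoImplicit false
set_option linter.all false
set_option linter.deprecated false

/-!
# The truncated ball has the Kakeya rotation property

Any four points of the unit ball lie in a common rotated copy of the truncated ball, so by Helly's
theorem every convex body containing a translate of each rotated copy of the truncated ball
contains a translate of the whole unit ball.
-/

namespace Pool.Agent.H210R3.Kakeya

open Matrix Pool.Agent.H210R3.SO3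

/-- The truncated ball. -/
def TB : Set E := {v | ‖v‖ ≤ 1 ∧ v 0 ≤ 3 / 4}

theorem convex_TB : Convex ℝ TB := by
  intro x hx y hy a b ha hb hab
  refine ⟨?_, ?_⟩
  · have := (convex_closedBall (0 : E) 1) (x := x) (by simpa using hx.1) (y := y)
      (by simpa using hy.1) ha hb hab
    simpa using this
  · have h1 := hx.2
    have h2 := hy.2
    simp only [PiLp.add_apply, PiLp.smul_apply, smul_eq_mul]
    nlinarith

theorem compact_TB : IsCompact TB := by
  have : TB = Metric.closedBall (0 : E) 1 ∩ {v | v 0 ≤ 3 / 4} := by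
    ext v
    simp [TB]
  rw [this]
  apply (isCompact_closedBall (0 : E) 1).inter_right
  exact isClosed_le (by fun_prop) continuous_const

theorem zero_mem_TB : (0 : E) ∈ TB := by
  simp only [TB, Set.mem_setOf_eq, norm_zero, PiLp.zero_apply]
  norm_num

theorem single_mem_TB {i : Fin 3} (hi : i ≠ 0) (c : ℝ) (hc : |c| ≤ 1) :
    (EuclideanSpace.single i c : E) ∈ TB := by
  refine ⟨by simpa using hc, ?_⟩
  simp [Ne.symm hi]
  norm_num

theorem not_singleton : ¬ ∃ a : E, TB = {a} := by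
  rintro ⟨a, ha⟩
  have h0 : (0 : E) ∈ ({a} : Set E) := ha ▸ zero_mem_TB
  have h1 : (EuclideanSpace.single (1 : Fin 3) (1 : ℝ) : E) ∈ ({a} : Set E) :=
    ha ▸ single_mem_TB (by decide) 1 (by norm_num)
  rw [Set.mem_singleton_iff] at h0 h1
  have h := h1.trans h0.symm
  have := congrArg (fun v : E => v 1) h
  simp at this

theorem not_segment : ¬ ∃ a b : E, a ≠ b ∧ TB = segment ℝ a b := by
  rintro ⟨a, b, -, hab⟩
  have key : ∀ i : Fin 3, i ≠ 0 → b i - a i ≠ 0 ∧ ∀ j, j ≠ i → b j - a j = 0 := by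
    intro i hi
    have h1 : (EuclideanSpace.single i (1 : ℝ) : E) ∈ segment ℝ a b :=
      hab ▸ single_mem_TB hi 1 (by norm_num)
    have h2 : (EuclideanSpace.single i (-1 : ℝ) : E) ∈ segment ℝ a b :=
      hab ▸ single_mem_TB hi (-1) (by norm_num)
    rw [segment_eq_image'] at h1 h2
    obtain ⟨t, -, ht⟩ := h1
    obtain ⟨s, -, hs⟩ := h2
    have e1 := fun j => congrArg (fun v : E => v j) ht
    have e2 := fun j => congrArg (fun v : E => v j) hs
    simp only [PiLp.add_apply, PiLp.smul_apply, PiLp.sub_apply, smul_eq_mul] at e1 e2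
    have e1i := e1 i
    have e2i := e2 i
    simp at e1i e2i
    refine ⟨?_, ?_⟩
    · intro h0
      rw [h0] at e1i e2i
      linarith
    · intro j hj
      have e1j := e1 j
      have e2j := e2 j
      simp [hj] at e1j e2j
      have hts : t - s ≠ 0 := by
        intro h
        have : t = s := by linarith
        rw [this] at e1i
        linarith
      have : (t - s) * (b j - a j) = 0 := by linarith
      rcases mul_eq_zero.1 this with h | h
      · exact absurd h hts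
      · exact h
  have h1 := (key 1 (by decide)).1
  have h2 := (key 2 (by decide)).2 1 (by decide)
  exact h1 h2

theorem not_ball : ¬ ∃ (c : E) (r : ℝ), 0 < r ∧ TB = Metric.closedBall c r := by
  rintro ⟨c, r, hr, h⟩
  have h1 : (EuclideanSpace.single (1 : Fin 3) (1 : ℝ) : E) ∈ Metric.closedBall c r :=
    h ▸ single_mem_TB (by decide) 1 (by norm_num)
  have h2 : (EuclideanSpace.single (1 : Fin 3) (-1 : ℝ) : E) ∈ Metric.closedBall c r :=
    h ▸ single_mem_TB (by decide) (-1) (by norm_num)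
  have h3 : c + EuclideanSpace.single (0 : Fin 3) r ∈ TB := by
    rw [h]
    simp [abs_of_pos hr]
  have h4 : c - EuclideanSpace.single (0 : Fin 3) r ∈ TB := by
    rw [h]
    simp [abs_of_pos hr]
  rw [Metric.mem_closedBall, dist_eq_norm] at h1 h2
  have e1 : ‖(EuclideanSpace.single (1 : Fin 3) (1 : ℝ) : E) - c‖ ^ 2 ≤ r ^ 2 :=
    pow_le_pow_left₀ (norm_nonneg _) h1 2
  have e2 : ‖(EuclideanSpace.single (1 : Fin 3) (-1 : ℝ) : E) - c‖ ^ 2 ≤ r ^ 2 :=
    pow_le_pow_left₀ (norm_nonneg _) h2 2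
  have e3 : ‖c + EuclideanSpace.single (0 : Fin 3) r‖ ^ 2 ≤ 1 :=
    pow_le_one₀ (norm_nonneg _) h3.1
  have e4 : ‖c - EuclideanSpace.single (0 : Fin 3) r‖ ^ 2 ≤ 1 :=
    pow_le_one₀ (norm_nonneg _) h4.1
  rw [norm_sq3] at e1 e2 e3 e4
  simp at e1 e2 e3 e4
  have h5 := h3.2
  simp at h5
  have hc0 : c 0 ^ 2 + c 1 ^ 2 + c 2 ^ 2 ≤ 0 := by nlinarith
  have hr1 : 1 ≤ r ^ 2 := by nlinarith [sq_nonneg (c 0), sq_nonneg (c 1), sq_nonneg (c 2)]
  have hc00 : c 0 = 0 := by nlinarith [sq_nonneg (c 0), sq_nonneg (c 1), sq_nonneg (c 2)]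
  rw [hc00] at h5
  nlinarith

/-- Rotations bringing the first coordinate direction to `± e_k`. -/
theorem rot (k : Fin 3) (s : Bool) : ∃ ρ ∈ Matrix.specialOrthogonalGroup (Fin 3) ℝ,
    ∀ b : E, ∃ v : E, Matrix.toEuclideanLin ρ v = b ∧ ‖v‖ = ‖b‖ ∧
      v 0 = (if s then 1 else -1) * b k := by
  have nrm : ∀ v b : E, v 0 ^ 2 + v 1 ^ 2 + v 2 ^ 2 = b 0 ^ 2 + b 1 ^ 2 + b 2 ^ 2 → ‖v‖ = ‖b‖ := by
    intro v b h
    apply (pow_left_inj₀ (norm_nonneg _) (norm_nonneg _) two_ne_zero).1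
    rw [norm_sq3, norm_sq3, h]
  have so : ∀ A : Matrix (Fin 3) (Fin 3) ℝ, A * Aᵀ = 1 → A.det = 1 →
      A ∈ Matrix.specialOrthogonalGroup (Fin 3) ℝ := by
    intro A h1 h2
    exact Matrix.mem_specialOrthogonalGroup_iff.2 ⟨(Matrix.mem_orthogonalGroup_iff (Fin 3) ℝ).2 h1, h2⟩
  fin_cases k <;> cases s
  · refine ⟨!![-1, 0, 0; 0, -1, 0; 0, 0, 1], so _ ?_ ?_, fun b => ⟨!₂[-b 0, -b 1, b 2], ?_, ?_, ?_⟩⟩
    · ext i j; fin_cases i <;> fin_cases j <;> simp [Matrix.mul_apply, Fin.sum_univ_three]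
    · simp [Matrix.det_fin_three]
    · ext i; fin_cases i <;> simp [Matrix.toEuclideanLin_apply, Matrix.mulVec, dotProduct, Fin.sum_univ_three]
    · apply nrm; simp
    · simp
  · refine ⟨!![1, 0, 0; 0, 1, 0; 0, 0, 1], so _ ?_ ?_, fun b => ⟨!₂[b 0, b 1, b 2], ?_, ?_, ?_⟩⟩
    · ext i j; fin_cases i <;> fin_cases j <;> simp [Matrix.mul_apply, Fin.sum_univ_three]
    · simp [Matrix.det_fin_three]
    · ext i; fin_cases i <;> simp [Matrix.toEuclideanLin_apply, Matrix.mulVec, dotProduct, Fin.sum_univ_three]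
    · apply nrm; simp
    · simp
  · refine ⟨!![0, 0, 1; -1, 0, 0; 0, -1, 0], so _ ?_ ?_, fun b => ⟨!₂[-b 1, -b 2, b 0], ?_, ?_, ?_⟩⟩
    · ext i j; fin_cases i <;> fin_cases j <;> simp [Matrix.mul_apply, Fin.sum_univ_three]
    · simp [Matrix.det_fin_three]
    · ext i; fin_cases i <;> simp [Matrix.toEuclideanLin_apply, Matrix.mulVec, dotProduct, Fin.sum_univ_three]
    · apply nrm; simp; ring
    · simp
  · refine ⟨!![0, 0, 1; 1, 0, 0; 0, 1, 0], so _ ?_ ?_, fun b => ⟨!₂[b 1, b 2, b 0], ?_, ?_, ?_⟩⟩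
    · ext i j; fin_cases i <;> fin_cases j <;> simp [Matrix.mul_apply, Fin.sum_univ_three]
    · simp [Matrix.det_fin_three]
    · ext i; fin_cases i <;> simp [Matrix.toEuclideanLin_apply, Matrix.mulVec, dotProduct, Fin.sum_univ_three]
    · apply nrm; simp; ring
    · simp
  · refine ⟨!![0, -1, 0; 0, 0, 1; -1, 0, 0], so _ ?_ ?_, fun b => ⟨!₂[-b 2, -b 0, b 1], ?_, ?_, ?_⟩⟩
    · ext i j; fin_cases i <;> fin_cases j <;> simp [Matrix.mul_apply, Fin.sum_univ_three]
    · simp [Matrix.det_fin_three]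
    · ext i; fin_cases i <;> simp [Matrix.toEuclideanLin_apply, Matrix.mulVec, dotProduct, Fin.sum_univ_three]
    · apply nrm; simp; ring
    · simp
  · refine ⟨!![0, 1, 0; 0, 0, 1; 1, 0, 0], so _ ?_ ?_, fun b => ⟨!₂[b 2, b 0, b 1], ?_, ?_, ?_⟩⟩
    · ext i j; fin_cases i <;> fin_cases j <;> simp [Matrix.mul_apply, Fin.sum_univ_three]
    · simp [Matrix.det_fin_three]
    · ext i; fin_cases i <;> simp [Matrix.toEuclideanLin_apply, Matrix.mulVec, dotProduct, Fin.sum_univ_three]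
    · apply nrm; simp; ring
    · simp

/-- At most four points of the unit ball lie in a common rotated copy of the truncated ball. -/
theorem pigeon (I : Finset (Metric.closedBall (0 : E) 1)) (hI : I.card ≤ 4) :
    ∃ k : Fin 3, ∃ s : Bool, ∀ b ∈ I, (if s then (1 : ℝ) else -1) * (b : E) k ≤ 3 / 4 := by
  by_contra hcon
  push_neg at hcon
  choose f hf hf' using fun p : Fin 3 × Bool => hcon p.1 p.2
  have hinj : Function.Injective f := by
    rintro ⟨k, s⟩ ⟨k', s'⟩ h
    have h1 := hf' (k, s)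
    have h2 := hf' (k', s')
    simp only at h1 h2
    rw [h] at h1
    set b : E := (f (k', s') : E) with hb
    have hbn : ‖b‖ ^ 2 ≤ 1 := by
      have := (f (k', s')).2
      rw [mem_closedBall_zero_iff] at this
      exact pow_le_one₀ (norm_nonneg _) this
    rw [norm_sq3] at hbn
    have q : ∀ j : Fin 3, ∀ σ : Bool, 3 / 4 < (if σ then (1 : ℝ) else -1) * b j →
        9 / 16 < b j ^ 2 := by
      intro j σ h
      cases σ <;> simp at h <;> nlinarith
    have q1 := q k s h1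
    have q2 := q k' s' h2
    have hkk : k = k' := by
      by_contra hne
      fin_cases k <;> fin_cases k' <;> first
        | exact hne rfl
        | (simp at q1 q2
           nlinarith [sq_nonneg (b 0), sq_nonneg (b 1), sq_nonneg (b 2)])
    subst hkk
    have hss : s = s' := by
      cases s <;> cases s' <;> simp at h1 h2 ⊢ <;> linarith
    rw [hss]
  have hcard : (Finset.univ : Finset (Fin 3 × Bool)).card ≤ I.card :=
    Finset.card_le_card_of_injOn f (fun p _ => hf p) (hinj.injOn)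
  simp at hcard
  omega

/-- A convex body containing a translate of every rotated truncated ball contains a unit ball. -/
theorem contains_ball (K : Set E) (hc : Convex ℝ K) (hK : IsCompact K)
    (h : ∀ ρ ∈ Matrix.specialOrthogonalGroup (Fin 3) ℝ,
          ∃ x : E, (fun v => Matrix.toEuclideanLin ρ v + x) '' TB ⊆ K) :
    ∃ x : E, ∀ b : E, ‖b‖ ≤ 1 → b + x ∈ K := by
  have hel := Convex.helly_theorem_compact' (𝕜 := ℝ) (E := E)
    (F := fun b : Metric.closedBall (0 : E) 1 => {x : E | (b : E) + x ∈ K}) ?_ ?_ ?_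
  · obtain ⟨x, hx⟩ := hel
    refine ⟨x, fun b hb => ?_⟩
    have := Set.mem_iInter.1 hx ⟨b, by simpa using hb⟩
    exact this
  · intro b x hx y hy α β hα hβ hαβ
    have := hc hx hy hα hβ hαβ
    have e : α • ((b : E) + x) + β • ((b : E) + y) = (b : E) + (α • x + β • y) := by
      rw [smul_add, smul_add]
      have : (b : E) = α • (b : E) + β • (b : E) := by rw [← add_smul, hαβ, one_smul]
      nth_rewrite 3 [this]
      abel
    rw [e] at this
    exact this
  · intro b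
    exact (Homeomorph.addLeft (b : E)).isCompact_preimage.2 hK
  · intro I hI
    have hI4 : I.card ≤ 4 := by simpa using hI
    obtain ⟨k, s, hks⟩ := pigeon I hI4
    obtain ⟨ρ, hρ, hv⟩ := rot k s
    obtain ⟨x, hx⟩ := h ρ hρ
    refine ⟨x, Set.mem_iInter₂.2 fun b hb => ?_⟩
    obtain ⟨v, hv1, hv2, hv3⟩ := hv b
    apply hx
    refine ⟨v, ⟨?_, ?_⟩, ?_⟩
    · rw [hv2]
      exact mem_closedBall_zero_iff.1 b.2
    · rw [hv3]
      exact hks b hb
    · simp [hv1]

theorem norm_rot {ρ : Matrix (Fin 3) (Fin 3) ℝ} (hρ : ρ ∈ Matrix.specialOrthogonalGroup (Fin 3) ℝ)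
    (v : E) : ‖Matrix.toEuclideanLin ρ v‖ = ‖v‖ :=
  (toIso (Matrix.mem_specialOrthogonalGroup_iff.1 hρ).1).norm_map v

/-- The truncated ball has the Kakeya rotation property. -/
theorem rotation_property (K : Set E) (hc : Convex ℝ K) (hK : IsCompact K)
    (h : ∀ ρ ∈ Matrix.specialOrthogonalGroup (Fin 3) ℝ,
          ∃ x : E, (fun v => Matrix.toEuclideanLin ρ v + x) '' TB ⊆ K)
    (ρ₀ ρ₁ : Matrix (Fin 3) (Fin 3) ℝ) (x₀ x₁ : E)
    (h₀ : ρ₀ ∈ Matrix.specialOrthogonalGroup (Fin 3) ℝ)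
    (h₁ : ρ₁ ∈ Matrix.specialOrthogonalGroup (Fin 3) ℝ)
    (hS₀ : (fun v => Matrix.toEuclideanLin ρ₀ v + x₀) '' TB ⊆ K)
    (hS₁ : (fun v => Matrix.toEuclideanLin ρ₁ v + x₁) '' TB ⊆ K) :
    ∃ γ : ℝ → Matrix (Fin 3) (Fin 3) ℝ, ∃ δ : ℝ → E,
      Continuous γ ∧ Continuous δ ∧ γ 0 = ρ₀ ∧ γ 1 = ρ₁ ∧ δ 0 = x₀ ∧ δ 1 = x₁ ∧
      ∀ t ∈ Set.Icc (0 : ℝ) 1, γ t ∈ Matrix.specialOrthogonalGroup (Fin 3) ℝ ∧
        (fun v => Matrix.toEuclideanLin (γ t) v + δ t) '' TB ⊆ K := by
  obtain ⟨xc, hxc⟩ := contains_ball K hc hK h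
  let G : Set (Matrix (Fin 3) (Fin 3) ℝ × E) :=
    {p | p.1 ∈ Matrix.specialOrthogonalGroup (Fin 3) ℝ ∧
      (fun v => Matrix.toEuclideanLin p.1 v + p.2) '' TB ⊆ K}
  have hcen : ∀ ρ ∈ Matrix.specialOrthogonalGroup (Fin 3) ℝ,
      (fun v => Matrix.toEuclideanLin ρ v + xc) '' TB ⊆ K := by
    rintro ρ hρ _ ⟨v, hv, rfl⟩
    exact hxc _ (by rw [norm_rot hρ]; exact hv.1)
  have trans_path : ∀ ρ ∈ Matrix.specialOrthogonalGroup (Fin 3) ℝ, ∀ x : E,
      (fun v => Matrix.toEuclideanLin ρ v + x) '' TB ⊆ K → JoinedIn G (ρ, x) (ρ, xc) := by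
    intro ρ hρ x hx
    refine JoinedIn.ofLine (f := fun t : ℝ => (ρ, (1 - t) • x + t • xc)) ?_ (by simp) (by simp) ?_
    · apply Continuous.continuousOn
      fun_prop
    · rintro _ ⟨t, ht, rfl⟩
      refine ⟨hρ, ?_⟩
      rintro _ ⟨v, hv, rfl⟩
      have a1 := hx ⟨v, hv, rfl⟩
      have a2 := hcen ρ hρ ⟨v, hv, rfl⟩
      have := hc a1 a2 (a := 1 - t) (b := t) (by linarith [ht.2]) ht.1 (by ring)
      convert this using 1
      simp only [smul_add]
      have e : Matrix.toEuclideanLin ρ v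
          = (1 - t) • Matrix.toEuclideanLin ρ v + t • Matrix.toEuclideanLin ρ v := by
        rw [← add_smul]; simp
      nth_rewrite 1 [e]
      abel
  have hrot : JoinedIn G (ρ₀, xc) (ρ₁, xc) := by
    have hj := Pool.Agent.H210R3.SO3.joined (A := ρ₀) (B := ρ₁) h₀ h₁
    have hm := hj.map (f := fun ρ : Matrix (Fin 3) (Fin 3) ℝ => (ρ, xc)) (by fun_prop)
    refine hm.mono ?_
    rintro _ ⟨ρ, hρ, rfl⟩
    exact ⟨hρ, hcen ρ hρ⟩
  have htot : JoinedIn G (ρ₀, x₀) (ρ₁, x₁) :=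
    ((trans_path ρ₀ h₀ x₀ hS₀).trans hrot).trans (trans_path ρ₁ h₁ x₁ hS₁).symm
  let p := htot.somePath
  have hpmem : ∀ t, p t ∈ G := htot.somePath_mem
  refine ⟨fun t => (p.extend t).1, fun t => (p.extend t).2, ?_, ?_, ?_, ?_, ?_, ?_, ?_⟩
  · exact continuous_fst.comp p.continuous_extend
  · exact continuous_snd.comp p.continuous_extend
  · simp
  · simp
  · simp
  · simp
  · intro t ht
    have : p.extend t = p ⟨t, ht⟩ := by
      rw [Path.extend_apply p ht]
    have hm := hpmem ⟨t, ht⟩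
    rw [← this] at hm
    exact hm

end Pool.Agent.H210R3.Kakeya
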