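import Mathlib
import Pool.Agent.H210R3.Coord

set_option autoImplicit false
set_option linter.all false
set_option linter.deprecated false

namespace Pool.Agent.H210R3.Coord

open MeasureTheory Set
open scoped Pointwise

/-- The planar stadium: points at distance at most `ρ` from the segment `[0,s] × {0}`. -/
def T (s ρ : ℝ) : Set (ℝ × ℝ) := {p | ∃ τ ∈ Icc (0 : ℝ) s, (p.1 - τ) ^ 2 + p.2 ^ 2 ≤ ρ ^ 2}

theorem T_fibre {s ρ y : ℝ} (hs : 0 ≤ s) (hρ : 0 ≤ ρ) :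
    (fun x => (x, y)) ⁻¹' (T s ρ) =
      if y ∈ Icc (-ρ) ρ then Icc (-√(ρ ^ 2 - y ^ 2)) (s + √(ρ ^ 2 - y ^ 2)) else ∅ := by
  split_ifs with hy
  · have hy2 : 0 ≤ ρ ^ 2 - y ^ 2 := by nlinarith [hy.1, hy.2]
    set r := √(ρ ^ 2 - y ^ 2) with hr
    have hr0 : 0 ≤ r := Real.sqrt_nonneg _
    have hrsq : r ^ 2 = ρ ^ 2 - y ^ 2 := Real.sq_sqrt hy2
    ext x
    simp only [mem_preimage, T, mem_setOf_eq, mem_Icc]
    constructor
    · rintro ⟨τ, ⟨h0, h1⟩, h⟩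
      have h2 : (x - τ) ^ 2 ≤ r ^ 2 := by linarith
      have h3 := abs_le_of_sq_le_sq' h2 hr0
      constructor <;> linarith [h3.1, h3.2]
    · rintro ⟨h1, h2⟩
      by_cases c1 : x < 0
      · exact ⟨0, ⟨le_rfl, hs⟩, by nlinarith⟩
      · by_cases c2 : s < x
        · exact ⟨s, ⟨hs, le_rfl⟩, by nlinarith⟩
        · exact ⟨x, ⟨not_lt.1 c1, not_lt.1 c2⟩, by nlinarith⟩
  · ext x
    simp only [mem_preimage, T, mem_setOf_eq, mem_empty_iff_false, iff_false]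
    rintro ⟨τ, -, h⟩
    apply hy
    have : y ^ 2 ≤ ρ ^ 2 := by nlinarith [sq_nonneg (x - τ)]
    exact abs_le_of_sq_le_sq' this hρ

theorem T_closed (s ρ : ℝ) : IsClosed (T s ρ) := by
  have h : IsClosed ((fun q : ℝ × (ℝ × ℝ) => q.2) ''
      {q : ℝ × (ℝ × ℝ) | q.1 ∈ Icc 0 s ∧ (q.2.1 - q.1) ^ 2 + q.2.2 ^ 2 ≤ ρ ^ 2}) := by
    apply IsCompact.isClosed
    apply IsCompact.image _ continuous_snd
    have hcl : IsClosed {q : ℝ × (ℝ × ℝ) | q.1 ∈ Icc 0 s ∧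
        (q.2.1 - q.1) ^ 2 + q.2.2 ^ 2 ≤ ρ ^ 2} := by
      apply IsClosed.inter
      · exact isClosed_Icc.preimage continuous_fst
      · exact isClosed_le (f := fun q : ℝ × (ℝ × ℝ) => (q.2.1 - q.1) ^ 2 + q.2.2 ^ 2)
          (by fun_prop) continuous_const
    refine IsCompact.of_isClosed_subset
      ((isCompact_Icc (a := (0 : ℝ)) (b := s)).prod
        ((isCompact_Icc (a := -|ρ|) (b := s + |ρ|)).prod
          (isCompact_Icc (a := -|ρ|) (b := |ρ|)))) hcl ?_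
    rintro ⟨τ, x, y⟩ ⟨h1, h2⟩
    simp only at h1 h2
    have a1 : (x - τ) ^ 2 ≤ |ρ| ^ 2 := by rw [sq_abs]; nlinarith [sq_nonneg y]
    have a2 : y ^ 2 ≤ |ρ| ^ 2 := by rw [sq_abs]; nlinarith [sq_nonneg (x - τ)]
    have b1 := abs_le_of_sq_le_sq' a1 (abs_nonneg _)
    have b2 := abs_le_of_sq_le_sq' a2 (abs_nonneg _)
    refine ⟨h1, ⟨?_, ?_⟩, b2⟩
    · linarith [b1.1, h1.1]
    · linarith [b1.2, h1.2]
  convert h using 1
  ext p
  constructor
  · rintro ⟨τ, hτ, h⟩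
    exact ⟨(τ, p), ⟨hτ, h⟩, rfl⟩
  · rintro ⟨⟨τ, q⟩, ⟨h1, h2⟩, rfl⟩
    exact ⟨τ, h1, h2⟩

theorem int_sqrt {ρ : ℝ} (hρ : 0 ≤ ρ) :
    ∫ y in (-ρ)..ρ, √(ρ ^ 2 - y ^ 2) = Real.pi * ρ ^ 2 / 2 := by
  rcases hρ.eq_or_lt with h | h
  · simp [← h]
  · have e : ∀ y : ℝ, √(ρ ^ 2 - (ρ * y) ^ 2) = ρ * √(1 - y ^ 2) := by
      intro y
      have : ρ ^ 2 - (ρ * y) ^ 2 = ρ ^ 2 * (1 - y ^ 2) := by ring
      rw [this, Real.sqrt_mul (sq_nonneg _), Real.sqrt_sq hρ]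
    have h1 := intervalIntegral.mul_integral_comp_mul_left (a := -1) (b := 1) (c := ρ)
      (f := fun y => √(ρ ^ 2 - y ^ 2))
    simp only [e, mul_neg, mul_one] at h1
    rw [← h1, intervalIntegral.integral_const_mul, integral_sqrt_one_sub_sq]
    ring

/-- Area of the stadium. -/
theorem T_area {s ρ : ℝ} (hs : 0 ≤ s) (hρ : 0 ≤ ρ) :
    volume (T s ρ) = ENNReal.ofReal (2 * ρ * s + Real.pi * ρ ^ 2) := by
  rw [Measure.volume_eq_prod, Measure.prod_apply_symm (T_closed s ρ).measurableSet]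
  have h1 : ∀ y : ℝ, volume ((fun x => (x, y)) ⁻¹' (T s ρ)) =
      (Icc (-ρ) ρ).indicator (fun y => ENNReal.ofReal (s + 2 * √(ρ ^ 2 - y ^ 2))) y := by
    intro y
    rw [T_fibre hs hρ]
    by_cases hy : y ∈ Icc (-ρ) ρ
    · rw [if_pos hy, indicator_of_mem hy, Real.volume_Icc]
      congr 1
      ring
    · rw [if_neg hy, indicator_of_notMem hy, measure_empty]
  simp_rw [h1]
  rw [lintegral_indicator measurableSet_Icc,
    ← ofReal_integral_eq_lintegral_ofReal]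
  · congr 1
    rw [integral_Icc_eq_integral_Ioc, ← intervalIntegral.integral_of_le (by linarith),
      intervalIntegral.integral_add, intervalIntegral.integral_const_mul, int_sqrt hρ]
    · simp
      ring
    · exact intervalIntegrable_const
    · apply Continuous.intervalIntegrable
      fun_prop
  · apply Continuous.integrableOn_Icc
    fun_prop
  · filter_upwards with y
    positivity

end Pool.Agent.H210R3.Coord
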