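import Mathlib
import Pool.Agent.H210R3.Stadium

set_option autoImplicit false
set_option linter.all false
set_option linter.deprecated false

namespace Pool.Agent.H210R3.Coord

open MeasureTheory Set
open scoped Pointwise

theorem nsq (x : E) : ‖x‖ ^ 2 = x 0 ^ 2 + x 1 ^ 2 + x 2 ^ 2 := by
  rw [EuclideanSpace.norm_sq_eq, Fin.sum_univ_three]
  simp [sq_abs]

theorem mem_ball_iff {x : E} {t : ℝ} (ht : 0 ≤ t) :
    x ∈ Metric.closedBall (0 : E) t ↔ x 0 ^ 2 + x 1 ^ 2 + x 2 ^ 2 ≤ t ^ 2 := by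
  rw [mem_closedBall_zero_iff, ← nsq]
  exact (sq_le_sq₀ (norm_nonneg x) ht).symm

/-- The planar stadium inside space. -/
def P (s : ℝ) : Set E := {x | x 2 = 0 ∧ p2 x ∈ T s 1}

theorem P_slice {s t z : ℝ} (ht : 0 ≤ t) :
    Prod.mk z ⁻¹' (g ⁻¹' (P s + Metric.closedBall (0 : E) t)) =
      if z ∈ Icc (-t) t then T s (1 + √(t ^ 2 - z ^ 2)) else ∅ := by
  split_ifs with hz
  · have hz2 : 0 ≤ t ^ 2 - z ^ 2 := by nlinarith [hz.1, hz.2]
    set w := √(t ^ 2 - z ^ 2) with hw
    have hw0 : 0 ≤ w := Real.sqrt_nonneg _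
    have hwsq : w ^ 2 = t ^ 2 - z ^ 2 := Real.sq_sqrt hz2
    ext p
    simp only [mem_preimage]
    constructor
    · rintro ⟨q, ⟨hq2, τ, hτ, hq⟩, b, hb, e⟩
      simp only at hb e
      rw [mem_ball_iff ht] at hb
      have e0 : q 0 + b 0 = p.1 := congrArg (fun v : E => v 0) e
      have e1 : q 1 + b 1 = p.2 := congrArg (fun v : E => v 1) e
      have e2 : q 2 + b 2 = z := congrArg (fun v : E => v 2) e
      rw [hq2, zero_add] at e2
      rw [e2] at hb
      have hb' : b 0 ^ 2 + b 1 ^ 2 ≤ w ^ 2 := by linarith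
      have hq' : (q 0 - τ) ^ 2 + q 1 ^ 2 ≤ 1 := by simpa [p2] using hq
      refine ⟨τ, hτ, ?_⟩
      rw [← e0, ← e1]
      have hcs : (q 0 - τ) * b 0 + q 1 * b 1 ≤ w := by
        apply abs_le_of_sq_le_sq' _ hw0 |>.2
        have h1 : ((q 0 - τ) * b 0 + q 1 * b 1) ^ 2 ≤
            ((q 0 - τ) ^ 2 + q 1 ^ 2) * (b 0 ^ 2 + b 1 ^ 2) := by
          nlinarith [sq_nonneg ((q 0 - τ) * b 1 - q 1 * b 0)]
        have h2 : ((q 0 - τ) ^ 2 + q 1 ^ 2) * (b 0 ^ 2 + b 1 ^ 2) ≤ 1 * w ^ 2 := by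
          apply mul_le_mul hq' hb' (by positivity) (by norm_num)
        linarith
      nlinarith
    · rintro ⟨τ, hτ, h⟩
      have hpos : 0 < 1 + w := by linarith
      refine ⟨g (0, (τ + (p.1 - τ) / (1 + w), p.2 / (1 + w))), ⟨rfl, τ, hτ, ?_⟩,
        g (z, (p.1 - (τ + (p.1 - τ) / (1 + w)), p.2 - p.2 / (1 + w))), ?_, ?_⟩
      · show (τ + (p.1 - τ) / (1 + w) - τ) ^ 2 + (p.2 / (1 + w)) ^ 2 ≤ 1 ^ 2
        have : (τ + (p.1 - τ) / (1 + w) - τ) ^ 2 + (p.2 / (1 + w)) ^ 2 =
          ((p.1 - τ) ^ 2 + p.2 ^ 2) / (1 + w) ^ 2 := by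
          field_simp
          ring
        rw [this, div_le_iff₀ (by positivity)]
        linarith
      · rw [mem_ball_iff ht]
        simp only [g_zero, g_one, g_two]
        have e : (p.1 - (τ + (p.1 - τ) / (1 + w))) ^ 2 + (p.2 - p.2 / (1 + w)) ^ 2 =
          ((p.1 - τ) ^ 2 + p.2 ^ 2) / (1 + w) ^ 2 * w ^ 2 := by
          field_simp
          ring
        rw [e]
        have : ((p.1 - τ) ^ 2 + p.2 ^ 2) / (1 + w) ^ 2 ≤ 1 := by
          rw [div_le_one (by positivity)]
          exact h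
        have : ((p.1 - τ) ^ 2 + p.2 ^ 2) / (1 + w) ^ 2 * w ^ 2 ≤ 1 * w ^ 2 :=
          mul_le_mul_of_nonneg_right this (sq_nonneg _)
        linarith
      · ext i
        fin_cases i <;> simp
  · ext p
    simp only [mem_preimage, mem_empty_iff_false, iff_false]
    rintro ⟨q, ⟨hq2, τ, hτ, hq⟩, b, hb, e⟩
    simp only at hb e
    rw [mem_ball_iff ht] at hb
    have e2 : q 2 + b 2 = z := congrArg (fun v : E => v 2) e
    rw [hq2, zero_add] at e2
    rw [e2] at hb
    apply hz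
    have : z ^ 2 ≤ t ^ 2 := by nlinarith [sq_nonneg (b 0), sq_nonneg (b 1)]
    exact abs_le_of_sq_le_sq' this ht

theorem int_sq (t : ℝ) : ∫ z in (-t)..t, (t ^ 2 - z ^ 2) = 4 / 3 * t ^ 3 := by
  rw [intervalIntegral.integral_sub (by simp) (by
    apply Continuous.intervalIntegrable; fun_prop)]
  simp
  ring

theorem T_bdd (s : ℝ) : IsCompact (T s 1) := by
  refine IsCompact.of_isClosed_subset
    ((isCompact_Icc (a := -1) (b := s + 1)).prod (isCompact_Icc (a := -1) (b := (1 : ℝ))))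
    (T_closed s 1) ?_
  rintro ⟨x, y⟩ ⟨τ, hτ, h⟩
  simp only at h
  have a1 : (x - τ) ^ 2 ≤ 1 ^ 2 := by nlinarith [sq_nonneg y]
  have a2 : y ^ 2 ≤ 1 ^ 2 := by nlinarith [sq_nonneg (x - τ)]
  have b1 := abs_le_of_sq_le_sq' a1 zero_le_one
  have b2 := abs_le_of_sq_le_sq' a2 zero_le_one
  refine ⟨⟨?_, ?_⟩, b2⟩
  · linarith [b1.1, hτ.1]
  · linarith [b1.2, hτ.2]

theorem P_compact (s : ℝ) : IsCompact (P s) := by
  have : P s = (fun p => g (0, p)) '' T s 1 := by
    ext x
    constructor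
    · rintro ⟨h1, h2⟩
      refine ⟨p2 x, h2, ?_⟩
      ext i
      fin_cases i
      · rfl
      · rfl
      · exact h1.symm
    · rintro ⟨p, hp, rfl⟩
      exact ⟨rfl, hp⟩
  rw [this]
  apply (T_bdd s).image
  exact g_cont.comp (by fun_prop)

/-- Volume of the parallel body of the planar stadium. -/
theorem P_vol {s t : ℝ} (hs : 0 ≤ s) (ht : 0 ≤ t) :
    (volume (P s + Metric.closedBall (0 : E) t)).toReal =
      4 * s * t + Real.pi * s * t ^ 2 + 2 * Real.pi * t + Real.pi ^ 2 * t ^ 2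
        + 4 / 3 * Real.pi * t ^ 3 := by
  have hcomp : IsCompact (P s + Metric.closedBall (0 : E) t) :=
    (P_compact s).add (isCompact_closedBall _ _)
  rw [vol_eq hcomp.isClosed.measurableSet, Measure.volume_eq_prod,
    Measure.prod_apply (hcomp.isClosed.preimage g_cont).measurableSet]
  have h1 : ∀ z : ℝ, volume (Prod.mk z ⁻¹' (g ⁻¹' (P s + Metric.closedBall (0 : E) t))) =
      (Icc (-t) t).indicator (fun z => ENNReal.ofReal
        (2 * (1 + √(t ^ 2 - z ^ 2)) * s + Real.pi * (1 + √(t ^ 2 - z ^ 2)) ^ 2)) z := by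
    intro z
    rw [P_slice ht]
    by_cases hz : z ∈ Icc (-t) t
    · rw [if_pos hz, indicator_of_mem hz, T_area hs (by positivity)]
    · rw [if_neg hz, indicator_of_notMem hz, measure_empty]
  simp_rw [h1]
  rw [lintegral_indicator measurableSet_Icc,
    ← ofReal_integral_eq_lintegral_ofReal]
  · rw [ENNReal.toReal_ofReal]
    · rw [integral_Icc_eq_integral_Ioc, ← intervalIntegral.integral_of_le (by linarith)]
      have e : ∀ z ∈ uIcc (-t) t, 2 * (1 + √(t ^ 2 - z ^ 2)) * s +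
          Real.pi * (1 + √(t ^ 2 - z ^ 2)) ^ 2 =
          (2 * s + Real.pi) + (2 * s + 2 * Real.pi) * √(t ^ 2 - z ^ 2)
            + Real.pi * (t ^ 2 - z ^ 2) := by
        intro z hz
        rw [uIcc_of_le (by linarith)] at hz
        have hz2 : 0 ≤ t ^ 2 - z ^ 2 := by nlinarith [hz.1, hz.2]
        have hwsq : √(t ^ 2 - z ^ 2) ^ 2 = t ^ 2 - z ^ 2 := Real.sq_sqrt hz2
        linear_combination Real.pi * hwsq
      rw [intervalIntegral.integral_congr e, intervalIntegral.integral_add,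
        intervalIntegral.integral_add, intervalIntegral.integral_const_mul,
        intervalIntegral.integral_const_mul, int_sqrt ht, int_sq]
      · simp
        ring
      · exact intervalIntegrable_const
      · apply Continuous.intervalIntegrable
        fun_prop
      · apply Continuous.intervalIntegrable
        fun_prop
      · apply Continuous.intervalIntegrable
        fun_prop
    · apply integral_nonneg
      intro z
      positivity
  · apply Continuous.integrableOn_Icc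
    fun_prop
  · filter_upwards with y
    positivity

end Pool.Agent.H210R3.Coord
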