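import Mathlib
import Pool.Agent.H210R3.Sausage

set_option autoImplicit false
set_option linter.all false
set_option linter.deprecated false

namespace Pool.Agent.H210R3.Coord

open MeasureTheory Set
open scoped Pointwise

/-- The frame adapted to a direction `u` and a vector `v`. -/
theorem frame (u v : E) (hu : ‖u‖ = 1) :
    ∃ φ : E ≃ₗᵢ[ℝ] E, φ u = EuclideanSpace.single 2 1 ∧ φ v 1 = 0 ∧ 0 ≤ φ v 0 := by
  set w' := v - (inner ℝ u v) • u with hw'
  have huu : inner ℝ u u = (1 : ℝ) := by
    rw [real_inner_self_eq_norm_sq, hu]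
    norm_num
  have hort : inner ℝ u w' = (0 : ℝ) := by
    rw [hw', inner_sub_right, inner_smul_right, huu]
    ring
  by_cases h0 : w' = 0
  · -- degenerate case
    set f : Fin 3 → E := fun _ => u with hf
    have hon : Orthonormal ℝ (({2} : Set (Fin 3)).restrict f) := by
      constructor
      · intro i
        exact hu
      · intro i j hij
        exact absurd (Subsingleton.elim i j) hij
    obtain ⟨b, hb⟩ := hon.exists_orthonormalBasis_extension_of_card_eq (by simp)
    have hb2 : b 2 = u := hb 2 (by simp)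
    have hv : v = (inner ℝ u v) • u := by
      rw [hw', sub_eq_zero] at h0
      exact h0
    refine ⟨b.repr, ?_, ?_, ?_⟩
    · rw [← hb2, b.repr_self]
    · rw [b.repr_apply_apply, hv, ← hb2, inner_smul_right, b.inner_eq_ite]
      simp
    · rw [b.repr_apply_apply, hv, ← hb2, inner_smul_right, b.inner_eq_ite]
      simp
  · have hn : 0 < ‖w'‖ := norm_pos_iff.2 h0
    set f : Fin 3 → E := fun i => if i = 2 then u else (‖w'‖⁻¹ • w') with hf
    have f2 : f 2 = u := by simp [f]
    have f0 : f 0 = ‖w'‖⁻¹ • w' := by simp [f]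
    have hn0 : ‖f 0‖ = 1 := by
      rw [f0, norm_smul, norm_inv, norm_norm, inv_mul_cancel₀ hn.ne']
    have hi20 : inner ℝ (f 2) (f 0) = (0 : ℝ) := by
      rw [f0, f2, inner_smul_right, hort, mul_zero]
    have hi02 : inner ℝ (f 0) (f 2) = (0 : ℝ) := by
      rw [real_inner_comm, hi20]
    have hon : Orthonormal ℝ (({0, 2} : Set (Fin 3)).restrict f) := by
      constructor
      · rintro ⟨i, hi⟩
        show ‖f i‖ = 1
        have hi' : i = 0 ∨ i = 2 := by simpa using hi
        rcases hi' with h | h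
        · rw [h, hn0]
        · rw [h, f2, hu]
      · rintro ⟨i, hi⟩ ⟨j, hj⟩ hij
        show inner ℝ (f i) (f j) = (0 : ℝ)
        have hij' : i ≠ j := fun h => hij (Subtype.ext h)
        have hi' : i = 0 ∨ i = 2 := by simpa using hi
        have hj' : j = 0 ∨ j = 2 := by simpa using hj
        rcases hi' with h | h <;> rcases hj' with h' | h'
        · exact absurd (h.trans h'.symm) hij'
        · rw [h, h', hi02]
        · rw [h, h', hi20]
        · exact absurd (h.trans h'.symm) hij'
    obtain ⟨b, hb⟩ := hon.exists_orthonormalBasis_extension_of_card_eq (by simp)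
    have hb2 : b 2 = u := by
      have := hb 2 (by simp)
      simpa [f] using this
    have hb0 : b 0 = ‖w'‖⁻¹ • w' := by
      have := hb 0 (by simp)
      simpa [f] using this
    have hv : v = ‖w'‖ • b 0 + (inner ℝ u v) • b 2 := by
      rw [hb0, hb2, smul_smul, mul_inv_cancel₀ hn.ne', one_smul, hw']
      simp
    refine ⟨b.repr, ?_, ?_, ?_⟩
    · rw [← hb2, b.repr_self]
    · rw [b.repr_apply_apply, hv, inner_add_right, inner_smul_right, inner_smul_right,
        b.inner_eq_ite, b.inner_eq_ite]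
      simp
    · rw [b.repr_apply_apply, hv, inner_add_right, inner_smul_right, inner_smul_right,
        b.inner_eq_ite, b.inner_eq_ite]
      simp

/-- The sausage. -/
def K : Set E := Metric.closedBall 0 1 + segment ℝ (0 : E) (EuclideanSpace.single 2 2)

theorem seg_compact (v : E) : IsCompact (segment ℝ (0 : E) v) := by
  rw [segment_eq_image]
  apply isCompact_Icc.image
  fun_prop

theorem p2_ball {ρ : ℝ} (hρ : 0 ≤ ρ) : p2 '' Metric.closedBall (0 : E) ρ = T 0 ρ := by
  ext p
  constructor
  · rintro ⟨x, hx, rfl⟩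
    rw [mem_ball_iff hρ] at hx
    refine ⟨0, by simp, ?_⟩
    show (x 0 - 0) ^ 2 + x 1 ^ 2 ≤ ρ ^ 2
    nlinarith [sq_nonneg (x 2)]
  · rintro ⟨τ, hτ, h⟩
    have : τ = 0 := le_antisymm hτ.2 hτ.1
    subst this
    refine ⟨g (0, p), ?_, rfl⟩
    rw [mem_ball_iff hρ]
    simp only [g_zero, g_one, g_two]
    simpa using h

theorem ball_seg_vol {ρ : ℝ} (hρ : 0 ≤ ρ) :
    (volume (Metric.closedBall (0 : E) ρ + segment ℝ (0 : E) (EuclideanSpace.single 2 2))).toReal =
      4 / 3 * Real.pi * ρ ^ 3 + 2 * Real.pi * ρ ^ 2 := by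
  rw [vol_add_segment (isCompact_closedBall _ _) (convex_closedBall _ _) (by norm_num),
    p2_ball hρ, T_area le_rfl hρ, EuclideanSpace.volume_closedBall_fin_three,
    ← ENNReal.ofReal_pow hρ, ← ENNReal.ofReal_mul (by positivity),
    ← ENNReal.ofReal_mul (by norm_num), ← ENNReal.ofReal_add (by positivity) (by positivity),
    ENNReal.toReal_ofReal (by positivity)]
  ring

theorem K_vol : (volume K).toReal = 10 / 3 * Real.pi := by
  have := ball_seg_vol (ρ := 1) zero_le_one
  rw [K, this]
  ring

theorem K_add_vol {t : ℝ} (ht : 0 ≤ t) : (volume (K + Metric.closedBall (0 : E) t)).toReal =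
    4 / 3 * Real.pi * (1 + t) ^ 3 + 2 * Real.pi * (1 + t) ^ 2 := by
  have : K + Metric.closedBall (0 : E) t =
      Metric.closedBall 0 (1 + t) + segment ℝ (0 : E) (EuclideanSpace.single 2 2) := by
    rw [K, add_assoc, add_comm (segment ℝ (0 : E) _), ← add_assoc,
      closedBall_add_closedBall zero_le_one ht, add_zero]
  rw [this, ball_seg_vol (by linarith)]

theorem S_eq {S : ℝ} (h : Filter.Tendsto (fun t : ℝ =>
        ((volume (K + Metric.closedBall (0 : E) t)).toReal
          - (volume K).toReal) / (2 * t))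
        (nhdsWithin 0 (Set.Ioi 0)) (nhds S)) : S = 4 * Real.pi := by
  have h2 : Filter.Tendsto (fun t : ℝ =>
        ((volume (K + Metric.closedBall (0 : E) t)).toReal
          - (volume K).toReal) / (2 * t))
        (nhdsWithin 0 (Set.Ioi 0)) (nhds (4 * Real.pi)) := by
    have h3 : Filter.Tendsto (fun t : ℝ => 4 * Real.pi + (3 * Real.pi) * t
        + 2 / 3 * Real.pi * t ^ 2) (nhdsWithin 0 (Set.Ioi 0)) (nhds (4 * Real.pi)) := by
      have : Continuous (fun t : ℝ => 4 * Real.pi + (3 * Real.pi) * t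
        + 2 / 3 * Real.pi * t ^ 2) := by fun_prop
      have h4 := (this.tendsto 0).mono_left (nhdsWithin_le_nhds (s := Ioi (0 : ℝ)))
      simpa using h4
    refine h3.congr' ?_
    filter_upwards [self_mem_nhdsWithin] with t ht
    have ht' : (0 : ℝ) < t := ht
    rw [K_add_vol ht'.le, K_vol]
    field_simp
    ring
  exact tendsto_nhds_unique h h2

/-- Image of the sausage in the adapted frame. -/
theorem img_K (φ : E ≃ₗᵢ[ℝ] E) : φ '' K =
    Metric.closedBall 0 1 + segment ℝ (0 : E) (φ (EuclideanSpace.single 2 2)) := by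
  have h1 : φ '' Metric.closedBall (0 : E) 1 = Metric.closedBall 0 1 := by
    rw [LinearIsometryEquiv.image_closedBall, map_zero]
  have h2 : φ '' segment ℝ (0 : E) (EuclideanSpace.single 2 2) =
      segment ℝ (0 : E) (φ (EuclideanSpace.single 2 2)) := by
    have := image_segment ℝ (φ.toLinearEquiv.toLinearMap.toAffineMap) (0 : E)
      (EuclideanSpace.single 2 2)
    simpa using this
  have h3 : φ '' K = φ '' Metric.closedBall (0 : E) 1 +
      φ '' segment ℝ (0 : E) (EuclideanSpace.single 2 2) :=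
    Set.image_add φ.toLinearEquiv
  rw [h3, h1, h2]

theorem p2_img {w : E} (h1 : w 1 = 0) (h0 : 0 ≤ w 0) :
    p2 '' (Metric.closedBall (0 : E) 1 + segment ℝ (0 : E) w) = T (w 0) 1 := by
  ext p
  constructor
  · rintro ⟨x, ⟨b, hb, y, hy, rfl⟩, rfl⟩
    rw [segment_eq_image] at hy
    obtain ⟨τ, hτ, rfl⟩ := hy
    rw [mem_ball_iff zero_le_one] at hb
    refine ⟨τ * w 0, ⟨mul_nonneg hτ.1 h0, mul_le_of_le_one_left h0 hτ.2⟩, ?_⟩
    simp only [p2, smul_zero, zero_add, PiLp.add_apply, PiLp.smul_apply, smul_eq_mul, h1,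
      mul_zero, add_zero, add_sub_cancel_right]
    nlinarith [sq_nonneg (b 2)]
  · rintro ⟨τ, hτ, h⟩
    have hb : g (0, (p.1 - τ, p.2)) ∈ Metric.closedBall (0 : E) 1 := by
      rw [mem_ball_iff zero_le_one]
      simp only [g_zero, g_one, g_two]
      simpa using h
    rcases h0.eq_or_lt with e | hpos
    · have : τ = 0 := le_antisymm (by rw [e]; exact hτ.2) hτ.1
      subst this
      refine ⟨g (0, (p.1 - 0, p.2)) + 0, add_mem_add hb (left_mem_segment _ _ _), ?_⟩
      simp [p2]
    · refine ⟨g (0, (p.1 - τ, p.2)) + (τ / w 0) • w, add_mem_add hb ?_, ?_⟩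
      · rw [segment_eq_image]
        refine ⟨τ / w 0, ⟨div_nonneg hτ.1 h0, by rw [div_le_one hpos]; exact hτ.2⟩, ?_⟩
        simp
      · simp only [p2, PiLp.add_apply, PiLp.smul_apply, smul_eq_mul, h1, g_zero, g_one,
          mul_zero, add_zero]
        rw [div_mul_cancel₀ _ hpos.ne']
        simp

theorem vol_img (φ : E ≃ₗᵢ[ℝ] E) (A : Set E) (hA : MeasurableSet A) :
    volume (φ '' A) = volume A := by
  have := φ.measurePreserving.measure_preimage (s := φ '' A) (by
    exact (φ.toHomeomorph.measurableEmbedding.measurableSet_image.2 hA).nullMeasurableSet)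
  rw [← this, Set.preimage_image_eq _ φ.injective]

end Pool.Agent.H210R3.Coord
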