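import Mathlib
import Pool.Agent.H210R3.Sausage2

set_option autoImplicit false
set_option linter.all false
set_option linter.deprecated false

namespace Pool.Agent.H210R3.Coord

open MeasureTheory Set
open scoped Pointwise

theorem img_add (φ : E ≃ₗᵢ[ℝ] E) (A B : Set E) : φ '' (A + B) = φ '' A + φ '' B :=
  Set.image_add φ.toLinearEquiv

theorem img_seg (φ : E ≃ₗᵢ[ℝ] E) (v : E) : φ '' segment ℝ (0 : E) v = segment ℝ (0 : E) (φ v) := by
  have := image_segment ℝ (φ.toLinearEquiv.toLinearMap.toAffineMap) (0 : E) v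
  simpa using this

theorem K_compact : IsCompact K := (isCompact_closedBall _ _).add (seg_compact _)

theorem K_convex : Convex ℝ K := (convex_closedBall _ _).add (convex_segment _ _)

theorem K_int : (interior K).Nonempty := by
  refine ⟨0, ?_⟩
  have : Metric.ball (0 : E) 1 ⊆ K := by
    intro x hx
    exact ⟨x, Metric.ball_subset_closedBall hx, 0, left_mem_segment _ _ _, by simp⟩
  exact mem_interior.2 ⟨_, this, Metric.isOpen_ball, Metric.mem_ball_self one_pos⟩

/-- The two functionals of the projection along `u`. -/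
theorem proj_data (u : E) (hu : ‖u‖ = 1) : ∃ s : ℝ, 0 ≤ s ∧ s ≤ 2 ∧
    (volume (K + segment ℝ (0 : E) u)).toReal - (volume K).toReal = Real.pi + 2 * s ∧
    ∀ t : ℝ, 0 ≤ t → (volume ((fun x : E => x - (inner ℝ u x) • u) '' K
              + Metric.closedBall (0 : E) t)).toReal =
      4 * s * t + Real.pi * s * t ^ 2 + 2 * Real.pi * t + Real.pi ^ 2 * t ^ 2
        + 4 / 3 * Real.pi * t ^ 3 := by
  obtain ⟨φ, hφu, hφ1, hφ0⟩ := frame u (EuclideanSpace.single 2 2) hu
  set w : E := φ (EuclideanSpace.single 2 2) with hw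
  have hp2 : p2 '' (φ '' K) = T (w 0) 1 := by
    rw [img_K, ← hw]
    exact p2_img hφ1 hφ0
  refine ⟨w 0, hφ0, ?_, ?_, ?_⟩
  · have h1 : ‖w 0‖ ≤ ‖w‖ := PiLp.norm_apply_le w 0
    have h2 : ‖w‖ = 2 := by
      rw [hw, LinearIsometryEquiv.norm_map, EuclideanSpace.norm_single]
      simp
    rw [h2] at h1
    exact (le_abs_self _).trans h1
  · have e : volume (K + segment ℝ (0 : E) u) =
        volume K + ENNReal.ofReal (2 * 1 * w 0 + Real.pi * 1 ^ 2) := by
      rw [← vol_img φ _ (K_compact.add (seg_compact _)).isClosed.measurableSet, img_add, img_seg,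
        hφu, vol_add_segment (K_compact.image φ.continuous)
          (K_convex.is_linear_image φ.toLinearEquiv.toLinearMap.isLinear) zero_le_one,
        hp2, T_area hφ0 zero_le_one, vol_img φ _ K_compact.isClosed.measurableSet]
      simp
    rw [e, ENNReal.toReal_add K_compact.measure_lt_top.ne ENNReal.ofReal_ne_top,
      ENNReal.toReal_ofReal (by positivity)]
    ring
  · intro t ht
    have hpc : Continuous (fun x : E => x - (inner ℝ u x) • u) := by fun_prop
    have e : φ '' ((fun x : E => x - (inner ℝ u x) • u) '' K) = P (w 0) := by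
      have key : ∀ x : E, φ (x - (inner ℝ u x) • u) = g (0, p2 (φ x)) := by
        intro x
        have h1 : inner ℝ u x = φ x 2 := by
          rw [← φ.inner_map_map, hφu, EuclideanSpace.inner_single_left]
          simp
        rw [map_sub, map_smul, hφu, h1]
        ext i
        fin_cases i <;> simp [g, p2]
      ext y
      constructor
      · rintro ⟨_, ⟨x, hx, rfl⟩, rfl⟩
        simp only [key]
        refine ⟨rfl, ?_⟩
        have : p2 (φ x) ∈ p2 '' (φ '' K) := ⟨φ x, ⟨x, hx, rfl⟩, rfl⟩
        rw [hp2] at this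
        exact this
      · rintro ⟨h1, h2⟩
        rw [← hp2] at h2
        obtain ⟨_, ⟨x, hx, rfl⟩, hxy⟩ := h2
        refine ⟨_, ⟨x, hx, rfl⟩, ?_⟩
        simp only [key]
        rw [hxy]
        ext i
        fin_cases i
        · rfl
        · rfl
        · exact h1.symm
    have hcl : φ '' Metric.closedBall (0 : E) t = Metric.closedBall 0 t := by
      rw [LinearIsometryEquiv.image_closedBall, map_zero]
    rw [← vol_img φ _ ((K_compact.image hpc).add
      (isCompact_closedBall _ _)).isClosed.measurableSet, img_add, e, hcl, P_vol hφ0 ht]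

theorem L_eq {s L : ℝ} {A : ℝ} (f : ℝ → ℝ) (hA : A = Real.pi + 2 * s)
    (hf : ∀ t : ℝ, 0 ≤ t → f t =
      4 * s * t + Real.pi * s * t ^ 2 + 2 * Real.pi * t + Real.pi ^ 2 * t ^ 2
        + 4 / 3 * Real.pi * t ^ 3)
    (h : Filter.Tendsto (fun t : ℝ => (f t - 2 * t * A) / (Real.pi * t ^ 2))
        (nhdsWithin 0 (Set.Ioi 0)) (nhds L)) : L = Real.pi + s := by
  have h2 : Filter.Tendsto (fun t : ℝ => (f t - 2 * t * A) / (Real.pi * t ^ 2))
        (nhdsWithin 0 (Set.Ioi 0)) (nhds (Real.pi + s)) := by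
    have h3 : Filter.Tendsto (fun t : ℝ => (Real.pi + s) + 4 / 3 * t)
        (nhdsWithin 0 (Set.Ioi 0)) (nhds (Real.pi + s)) := by
      have : Continuous (fun t : ℝ => (Real.pi + s) + 4 / 3 * t) := by fun_prop
      have h4 := (this.tendsto 0).mono_left (nhdsWithin_le_nhds (s := Ioi (0 : ℝ)))
      simpa using h4
    refine h3.congr' ?_
    filter_upwards [self_mem_nhdsWithin] with t ht
    have ht' : (0 : ℝ) < t := ht
    have hpi := Real.pi_pos
    rw [hf t ht'.le, hA]
    field_simp
    ring
  exact tendsto_nhds_unique h h2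

theorem main : ¬ (∀ (K : Set (EuclideanSpace ℝ (Fin 3))) (c : ℝ),
    IsCompact K → Convex ℝ K → (interior K).Nonempty →
    (∀ u ∈ Metric.sphere (0 : EuclideanSpace ℝ (Fin 3)) 1, ∀ L : ℝ,
      Filter.Tendsto (fun t : ℝ =>
        ((volume ((fun x : EuclideanSpace ℝ (Fin 3) => x - (inner ℝ u x) • u) '' K
              + Metric.closedBall (0 : EuclideanSpace ℝ (Fin 3)) t)).toReal
          - 2 * t * ((volume (K + segment ℝ (0 : EuclideanSpace ℝ (Fin 3)) u)).toReal
              - (volume K).toReal)) / (Real.pi * t ^ 2))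
        (nhdsWithin 0 (Set.Ioi 0)) (nhds L) →
      c ≤ Real.pi * ((volume (K + segment ℝ (0 : EuclideanSpace ℝ (Fin 3)) u)).toReal
              - (volume K).toReal) / L ^ 2) →
    ∀ S : ℝ,
      Filter.Tendsto (fun t : ℝ =>
        ((volume (K + Metric.closedBall (0 : EuclideanSpace ℝ (Fin 3)) t)).toReal
          - (volume K).toReal) / (2 * t))
        (nhdsWithin 0 (Set.Ioi 0)) (nhds S) →
      c ≤ 9 * Real.pi * (volume K).toReal ^ 2 / (2 * S ^ 3)) := by
  intro H
  have hpi := Real.pi_pos
  have hpi3 := Real.pi_gt_three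
  have h1 := H K (4 / 5) K_compact K_convex K_int (by
    intro u hu L hL
    have hu' : ‖u‖ = 1 := by simpa using hu
    obtain ⟨s, hs0, hs2, hA, hf⟩ := proj_data u hu'
    have hL' := L_eq (fun t : ℝ => (volume ((fun x : E => x - (inner ℝ u x) • u) '' K
              + Metric.closedBall (0 : E) t)).toReal) hA hf hL
    rw [hL', hA, le_div_iff₀ (by positivity)]
    nlinarith [mul_nonneg hs0 (sub_nonneg.2 hs2), mul_nonneg hs0 (sub_nonneg.2 hpi3.le)])
    (4 * Real.pi) (by
      have h3 : Filter.Tendsto (fun t : ℝ => 4 * Real.pi + (3 * Real.pi) * t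
          + 2 / 3 * Real.pi * t ^ 2) (nhdsWithin 0 (Set.Ioi 0)) (nhds (4 * Real.pi)) := by
        have : Continuous (fun t : ℝ => 4 * Real.pi + (3 * Real.pi) * t
          + 2 / 3 * Real.pi * t ^ 2) := by fun_prop
        have h4 := (this.tendsto 0).mono_left (nhdsWithin_le_nhds (s := Ioi (0 : ℝ)))
        simpa using h4
      refine h3.congr' ?_
      filter_upwards [self_mem_nhdsWithin] with t ht
      have ht' : (0 : ℝ) < t := ht
      rw [K_add_vol ht'.le, K_vol]
      field_simp
      ring)
  rw [K_vol] at h1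
  have e : 9 * Real.pi * (10 / 3 * Real.pi) ^ 2 / (2 * (4 * Real.pi) ^ 3) = 25 / 32 := by
    field_simp
    norm_num
  rw [e] at h1
  norm_num at h1

end Pool.Agent.H210R3.Coord
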